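import Mathlib

/-!
helper11. Counterexample to the Huneke-Wiegand conjecture over one-dimensional
Gorenstein local domains. Basic data: a field `L` of characteristic two with an
action of `(ZMod 2)^4`, four elements `lam i` moved by translation, and six
fixed, distinct, nonzero elements `c i` of sum zero.
-/

set_option autoImplicit false

namespace Pool.Agent.HWX

/-- The group `(ZMod 2)^4`, written additively. -/
abbrev Gam : Type := Fin 4 → ZMod 2

/-- The six points `0, e1, e2, e3, e4, e1 + e2 + e3 + e4`. -/
def pt : Fin 6 → Gam :=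
  ![0, ![1, 0, 0, 0], ![0, 1, 0, 0], ![0, 0, 1, 0], ![0, 0, 0, 1], ![1, 1, 1, 1]]

/-- A field with an action of `(ZMod 2)^4` and the chosen elements. -/
structure Datum (L : Type) [Field L] where
  tau : Gam → L →+* L
  tau_zero : ∀ a, tau 0 a = a
  tau_add : ∀ g h a, tau (g + h) a = tau g (tau h a)
  lam : Fin 4 → L
  tau_lam : ∀ g i, tau g (lam i) = if g i = 0 then lam i else lam i + 1
  c : Fin 6 → L
  tau_c : ∀ g i, tau g (c i) = c i
  c_ne : ∀ i, c i ≠ 0
  c_inj : Function.Injective c
  c_sum : ∑ i, c i = 0
  two : (2 : L) = 0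

variable {L : Type} [Field L]

namespace Datum

/-- Elements fixed by the group. -/
def Fx (D : Datum L) (a : L) : Prop := ∀ g, D.tau g a = a

/-- The trace. -/
def Tr (D : Datum L) (a : L) : L := ∑ g, D.tau g a

/-- The operator `sum c_i tau (pt i)`. -/
def A (D : Datum L) (a : L) : L := ∑ i, D.c i * D.tau (pt i) a

end Datum

end Pool.Agent.HWX
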