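import Pool.Agent.HWX.St2

/-!
helper77. Large powers of nonunits are divisible.
-/

set_option autoImplicit false

namespace Pool.Agent.HWX

open scoped Classical
open PowerSeries

variable {L : Type} [Field L]

private lemma Divide_mem3 (D : Datum L) (f : PowerSeries L) : X ^ 3 * f ∈ D.R := by
  have h : ∀ m < 3, coeff m (X ^ 3 * f) = 0 := fun m hm => by
    rw [coeff_X_pow_mul', if_neg (by omega)]
  rw [D.mem_R, h 0 (by norm_num), h 1 (by norm_num), h 2 (by norm_num)]
  exact ⟨D.Fx_zero, D.A_zero, D.Tr_zero⟩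

theorem thm_Divide : St_Divide := by
  intro L _ D x s hx hs
  have hs0 : (s : PowerSeries L) ≠ 0 := fun h0 => hs (Subtype.ext h0)
  have hex : ∃ n, coeff n (s : PowerSeries L) ≠ 0 := by
    by_contra hcon
    push Not at hcon
    exact hs0 (PowerSeries.ext fun n => by rw [hcon n, map_zero])
  have hn := Nat.find_spec hex
  have hlt : ∀ m < Nat.find hex, coeff m (s : PowerSeries L) = 0 := by
    intro m hm
    have := Nat.find_min hex hm
    push Not at this
    exact this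
  obtain ⟨u, hu⟩ := X_pow_dvd_iff.2 hlt
  set n := Nat.find hex
  have hu0 : constantCoeff u ≠ 0 := by
    rw [hu, coeff_X_pow_mul', if_pos le_rfl, Nat.sub_self,
      coeff_zero_eq_constantCoeff_apply] at hn
    exact hn
  have huv : u * u⁻¹ = 1 := PowerSeries.mul_inv_cancel _ hu0
  obtain ⟨x', hx'⟩ : (X : PowerSeries L) ∣ (x : PowerSeries L) := X_dvd_iff.2 (by
    rw [← hx, coeff_zero_eq_constantCoeff_apply])
  refine ⟨n + 3, ⟨⟨X ^ 3 * (u⁻¹ * x' ^ (n + 3)), Divide_mem3 D _⟩, ?_⟩⟩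
  apply Subtype.ext
  show (x : PowerSeries L) ^ (n + 3) = (s : PowerSeries L) * (X ^ 3 * (u⁻¹ * x' ^ (n + 3)))
  rw [hx', hu]
  calc (X * x') ^ (n + 3) = X ^ (n + 3) * x' ^ (n + 3) := mul_pow _ _ _
    _ = (X ^ n * X ^ 3) * ((u * u⁻¹) * x' ^ (n + 3)) := by rw [huv, one_mul, pow_add]
    _ = X ^ n * u * (X ^ 3 * (u⁻¹ * x' ^ (n + 3))) := by ring

end Pool.Agent.HWX
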