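import Pool.Agent.HWX.St

/-!
HWX, module Dual: dual bases over the fixed field.
-/

set_option autoImplicit false

namespace Pool.Agent.HWX

open scoped Classical

private theorem dual_univ : (Finset.univ : Finset (ZMod 2)) = {0, 1} := by decide

theorem thm_Dual : St_Dual := by
  intro L _ D
  refine ⟨fun j => ∏ i, (if j i = 0 then 1 else D.lam i),
    fun j => ∏ i, (if j i = 0 then D.lam i + 1 else 1), fun g => ?_⟩
  have h1 : ∀ j : Gam, (∏ i, (if j i = 0 then 1 else D.lam i)) *
      D.tau g (∏ i, (if j i = 0 then D.lam i + 1 else 1)) =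
      ∏ i, (fun (i : Fin 4) (x : ZMod 2) =>
        if x = 0 then D.tau g (D.lam i + 1) else D.lam i) i (j i) := by
    intro j
    rw [map_prod, ← Finset.prod_mul_distrib]
    refine Finset.prod_congr rfl fun i _ => ?_
    by_cases hj : j i = 0
    · simp only [hj, if_true, one_mul]
    · simp only [hj, if_false, map_one, mul_one]
  have h2 : ∑ j : Gam, ∏ i, (fun (i : Fin 4) (x : ZMod 2) =>
        if x = 0 then D.tau g (D.lam i + 1) else D.lam i) i (j i) =
      ∏ i, ∑ x : ZMod 2, (fun (i : Fin 4) (x : ZMod 2) =>
        if x = 0 then D.tau g (D.lam i + 1) else D.lam i) i x := by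
    rw [Finset.prod_univ_sum, Fintype.piFinset_univ]
  have h3 : ∀ i : Fin 4, ∑ x : ZMod 2, (fun (i : Fin 4) (x : ZMod 2) =>
        if x = 0 then D.tau g (D.lam i + 1) else D.lam i) i x =
      if g i = 0 then 1 else 0 := by
    intro i
    have e : (1 : ZMod 2) ≠ 0 := by decide
    rw [dual_univ, Finset.sum_pair e.symm]
    simp only [if_true, e, if_false]
    rw [map_add, map_one, D.tau_lam]
    by_cases hg : g i = 0
    · rw [if_pos hg, if_pos hg]
      linear_combination D.lam i * D.two
    · rw [if_neg hg, if_neg hg]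
      linear_combination (D.lam i + 1) * D.two
  calc ∑ j : Gam, (∏ i, (if j i = 0 then 1 else D.lam i)) *
      D.tau g (∏ i, (if j i = 0 then D.lam i + 1 else 1))
      = ∏ i : Fin 4, (if g i = 0 then (1 : L) else 0) := by
        rw [Finset.sum_congr rfl fun j _ => h1 j, h2]
        exact Finset.prod_congr rfl fun i _ => h3 i
    _ = if g = 0 then 1 else 0 := by
        by_cases hg : g = 0
        · rw [if_pos hg]
          refine Finset.prod_eq_one fun i _ => ?_
          rw [if_pos (by rw [hg]; rfl)]
        · rw [if_neg hg]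
          obtain ⟨i, hi⟩ := Function.ne_iff.1 hg
          refine Finset.prod_eq_zero (Finset.mem_univ i) ?_
          exact if_neg hi

end Pool.Agent.HWX
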