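import Pool.Agent.HWX.Defs

/-!
helper11. Statements of the first modules of HWX (counterexample to the
Huneke-Wiegand conjecture, frozen statement S03634). Every statement carries
its complete proof in the docstring. Do not change this file.
-/

set_option autoImplicit false

namespace Pool.Agent.HWX

open scoped Classical

/-- EX. There is a field with a datum.

Proof. Let `P = MvPolynomial (Fin 5) (ZMod 2)` and `L = FractionRing P`. For
`g : Gam` let `phi g : P -> P` be the algebra map with `X i |-> X i + C (g i)`
for `i < 4` (write `i.castSucc`) and `X 4 |-> X 4` (`MvPolynomial.aeval`). On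
the variables one checks `phi 0 = id` and `phi (g + h) = (phi g).comp (phi h)`
(both sides send `X i` to `X i + C (g i) + C (h i)`), so `phi g` is bijective
because `g + g = 0`. Extend it to `tau g : L -> L` (for instance by
`IsFractionRing.map` or `IsLocalization.map`, injectivity gives the condition on
nonzerodivisors); two ring homomorphisms out of `L` that agree on the image of
`P` are equal (`IsFractionRing.injective`, `IsLocalization.ringHom_ext`), which
gives `tau_zero` and `tau_add`. Put `lam i = algebraMap (X i.castSucc)`; since
`g i` is `0` or `1` in `ZMod 2`, `tau g (lam i)` is `lam i` or `lam i + 1`.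
Put `y = algebraMap (X 4)` and `c = ![1, y, y^2, y^3, y^4, 1 + y + y^2 + y^3 + y^4]`.
These are fixed by all `tau g`, their sum is `2 * (..) = 0` in characteristic
two, and they are distinct and nonzero: `algebraMap P L` is injective, and under
the ring homomorphism `P -> Polynomial (ZMod 2)` with `X 4 |-> X` and
`X i |-> 0` the six polynomials become `1, X, X^2, X^3, X^4, 1 + X + .. + X^4`,
which are distinct and nonzero by comparing coefficients. `two` holds since `L`
is a `ZMod 2` algebra. -/
def St_Ex : Prop := ∃ (L : Type) (_ : Field L), Nonempty (Datum L)

variable {L : Type} [Field L]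

/-- DUAL. The dual bases of `L` over the fixed field.

Proof. Index by the sixteen subsets `J` of `Fin 4` (encode `J` as an element of
`Gam` or use `Finset (Fin 4)` and an equivalence with `Gam`; the index type is
`Gam` in the statement, `j i = 1` meaning `i` in `J`). Put
`al j = prod_i (if j i = 0 then 1 else lam i)` and
`be j = prod_i (if j i = 0 then lam i + 1 else 1)`. For `g : Gam`,
`sum_j al j * tau g (be j) = prod_i (tau g (lam i + 1) + lam i)`
(expand the product over `i` of a sum of two terms: `Finset.prod_univ_sum` or
`Finset.prod_add`), and `tau g (lam i + 1) + lam i` is `2 * lam i + 1 = 1` if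
`g i = 0` and `2 * lam i + 2 = 0` otherwise. So the product is `1` if `g = 0`
and `0` otherwise. -/
def St_Dual : Prop := ∀ {L : Type} [Field L] (D : Datum L),
  ∃ al be : Gam → L, ∀ g : Gam,
    ∑ j, al j * D.tau g (be j) = if g = 0 then 1 else 0

end Pool.Agent.HWX
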