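import Pool.Agent.HWX.Rg
import Pool.Agent.HWX.St

/-! helper11. Combinatorics of the six points and the code words. -/

set_option autoImplicit false

namespace Pool.Agent.HWX

open scoped Classical
open PowerSeries

theorem pt_inj : ∀ i j : Fin 6, pt i = pt j → i = j := by decide

theorem pt_three : ∀ i j k l : Fin 6, i ≠ j → i ≠ k → j ≠ k → pt l ≠ pt i + pt j + pt k := by
  decide

theorem out_form : ∀ g : Gam, (∀ i, pt i ≠ g) →
    ∃ a b c : Fin 6, a ≠ b ∧ a ≠ c ∧ b ≠ c ∧ g = pt a + pt b + pt c := by
  decide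

theorem out_other : ∀ g : Gam, ∃ h : Gam, h ≠ g ∧ ∀ i, pt i ≠ h := by
  decide

theorem pair_form : ∀ v : Gam, v ≠ 0 → ∃ a b : Fin 6, a ≠ b ∧ v = pt a + pt b := by
  decide

theorem meet : ∀ v : Gam, ∃ i j : Fin 6, pt i + v = pt j := by
  decide

theorem fourth : ∀ a b c : Fin 6, ∃ d : Fin 6, d ≠ a ∧ d ≠ b ∧ d ≠ c := by
  decide

noncomputable section

variable {L : Type} [Field L] (D : Datum L)

namespace Datum

/-- the basic code word -/
def w (g : Gam) : L := ∑ l, if pt l = g then D.c l else 0

theorem w_pt (i : Fin 6) : D.w (pt i) = D.c i := by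
  rw [w, Finset.sum_eq_single i]
  · simp
  · intro j _ hj
    rw [if_neg fun h => hj (pt_inj _ _ h)]
  · simp

theorem w_out (g : Gam) (hg : ∀ i, pt i ≠ g) : D.w g = 0 := by
  rw [w]
  exact Finset.sum_eq_zero fun i _ => if_neg (hg i)

theorem w_fx (g : Gam) : D.Fx (D.w g) := by
  refine D.Fx_sum _ _ fun i _ => ?_
  split_ifs
  · exact D.Fx_c i
  · exact D.Fx_zero

theorem w_three (i j k : Fin 6) : D.w (pt i + pt j + pt k) =
    (if i = j then D.c k else 0) + (if i = k then D.c j else 0) +
      (if j = k then D.c i else 0) := by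
  by_cases hij : i = j
  · subst hij
    rw [gam_add_self, zero_add, w_pt]
    by_cases hik : i = k
    · subst hik
      simp only [if_true]
      have := D.add_self (D.c i)
      linear_combination -this
    · simp [hik]
  · by_cases hik : i = k
    · subst hik
      have : pt i + pt j + pt i = pt j := by
        rw [add_comm (pt i + pt j), ← add_assoc, gam_add_self, zero_add]
      have hji : ¬ j = i := fun h => hij h.symm
      rw [this, w_pt]
      simp [hij, hji]
    · by_cases hjk : j = k
      · subst hjk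
        rw [add_assoc, gam_add_self, add_zero, w_pt]
        simp [hij]
      · rw [D.w_out _ fun l => pt_three i j k l hij hik hjk]
        simp [hij, hik, hjk]

/-- the translates of `w` are in the code -/
theorem w_code (v u : Gam) : ∑ i, D.c i * D.w (pt i + u + v) = 0 := by
  have e : ∀ i, D.c i * D.w (pt i + u + v) =
      ∑ j, if pt j = pt i + u + v then D.c i * D.c j else 0 := fun i => by
    rw [w, Finset.mul_sum]
    exact Finset.sum_congr rfl fun j _ => by split_ifs <;> simp
  simp only [e]
  rw [sum_symm D.two]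
  · by_cases h : u + v = 0
    · have h2 : ∀ i, (if pt i = pt i + u + v then D.c i * D.c i else 0) = D.c i * D.c i :=
        fun i => by rw [if_pos (by rw [add_assoc, h, add_zero])]
      simp only [h2]
      have h : ∑ i, D.c i * D.c i = (∑ i, D.c i) * ∑ i, D.c i := by
        rw [Finset.sum_mul_sum]
        rw [sum_symm D.two _ fun i j => mul_comm _ _]
      rw [h, D.c_sum, mul_zero]
    · refine Finset.sum_eq_zero fun i _ => ?_
      rw [if_neg]
      intro h3
      apply h
      rw [add_assoc] at h3
      exact (left_eq_add.1 h3)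
  · intro i j
    have : (pt j = pt i + u + v) ↔ (pt i = pt j + u + v) := by
      constructor
      · intro h
        rw [h, add_assoc, add_assoc, add_assoc, ← add_assoc u v, gam_add_self, add_zero]
      · intro h
        rw [h, add_assoc, add_assoc, add_assoc, ← add_assoc u v, gam_add_self, add_zero]
    simp only [this, mul_comm (D.c i)]

/-- the code word attached to the pairs `a b` and `c d` -/
def hw (a b c d : Fin 6) (g : Gam) : L :=
  D.c b * D.c d * D.w (g + (pt a + pt c)) + D.c b * D.c c * D.w (g + (pt a + pt d))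
    + D.c a * D.c d * D.w (g + (pt b + pt c)) + D.c a * D.c c * D.w (g + (pt b + pt d))

theorem hw_fx (a b c d : Fin 6) (g : Gam) : D.Fx (D.hw a b c d g) :=
  D.Fx_add (D.Fx_add (D.Fx_add (D.Fx_mul (D.Fx_mul (D.Fx_c _) (D.Fx_c _)) (D.w_fx _))
    (D.Fx_mul (D.Fx_mul (D.Fx_c _) (D.Fx_c _)) (D.w_fx _)))
    (D.Fx_mul (D.Fx_mul (D.Fx_c _) (D.Fx_c _)) (D.w_fx _)))
    (D.Fx_mul (D.Fx_mul (D.Fx_c _) (D.Fx_c _)) (D.w_fx _))

theorem hw_code (a b c d : Fin 6) (u : Gam) :
    ∑ i, D.c i * D.hw a b c d (pt i + u) = 0 := by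
  have e : ∀ i, D.c i * D.hw a b c d (pt i + u) =
      D.c b * D.c d * (D.c i * D.w (pt i + u + (pt a + pt c)))
      + D.c b * D.c c * (D.c i * D.w (pt i + u + (pt a + pt d)))
      + D.c a * D.c d * (D.c i * D.w (pt i + u + (pt b + pt c)))
      + D.c a * D.c c * (D.c i * D.w (pt i + u + (pt b + pt d))) := fun i => by
    rw [hw]; ring
  simp only [e, Finset.sum_add_distrib, ← Finset.mul_sum, w_code]
  simp

theorem hw_pt (a b c d : Fin 6) (hab : a ≠ b) (hac : a ≠ c) (had : a ≠ d) (hbc : b ≠ c)
    (hbd : b ≠ d) (hcd : c ≠ d) (i : Fin 6) : D.hw a b c d (pt i) = 0 := by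
  simp only [hw, ← add_assoc, w_three]
  have h2 : ∀ x : L, x + x = 0 := D.add_self
  by_cases h1 : i = a
  · subst h1
    simp [hab, hac, had, hbc, hbd, hab.symm, hac.symm, had.symm]
    linear_combination h2 (D.c b * D.c d * D.c c)
  · by_cases h3 : i = b
    · subst h3
      simp [hab, hac, had, hbc, hbd, hab.symm, hac.symm, had.symm, h1]
      linear_combination h2 (D.c a * D.c d * D.c c)
    · by_cases h4 : i = c
      · subst h4
        simp [hab, hac, had, hbc, hbd, hab.symm, hac.symm, had.symm, h1, h3, hcd]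
        linear_combination h2 (D.c a * D.c d * D.c b)
      · by_cases h5 : i = d
        · subst h5
          simp [hab, hac, had, hbc, hbd, hab.symm, hac.symm, had.symm, h1, h3, hcd, h4]
          linear_combination h2 (D.c a * D.c c * D.c b)
        · simp [hab, hac, had, hbc, hbd, h1, h3, h4, h5]

theorem hw_c (a b c d : Fin 6) (hab : a ≠ b) (hac : a ≠ c) (had : a ≠ d) (hbc : b ≠ c)
    (hbd : b ≠ d) (hcd : c ≠ d) :
    D.hw a b c d (pt a + pt b + pt c) = D.c d * (D.c a + D.c b) ^ 2 := by
  have h2 : ∀ x : L, x + x = 0 := D.add_self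
  have e1 : pt a + pt b + pt c + (pt a + pt c) = pt b := by
    have : pt a + pt b + pt c + (pt a + pt c) = (pt a + pt a) + (pt c + pt c) + pt b := by abel
    rw [this, gam_add_self, gam_add_self, zero_add, zero_add]
  have e2 : pt a + pt b + pt c + (pt a + pt d) = pt b + pt c + pt d := by
    have : pt a + pt b + pt c + (pt a + pt d) = (pt a + pt a) + (pt b + pt c + pt d) := by abel
    rw [this, gam_add_self, zero_add]
  have e3 : pt a + pt b + pt c + (pt b + pt c) = pt a := by
    have : pt a + pt b + pt c + (pt b + pt c) = (pt b + pt b) + (pt c + pt c) + pt a := by abel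
    rw [this, gam_add_self, gam_add_self, zero_add, zero_add]
  have e4 : pt a + pt b + pt c + (pt b + pt d) = pt a + pt c + pt d := by
    have : pt a + pt b + pt c + (pt b + pt d) = (pt b + pt b) + (pt a + pt c + pt d) := by abel
    rw [this, gam_add_self, zero_add]
  rw [hw, e1, e2, e3, e4, w_pt, w_pt, w_three, w_three]
  simp [hac, had, hbc, hbd, hcd]
  linear_combination - h2 (D.c d * D.c a * D.c b)

theorem hw_d (a b c d : Fin 6) (hab : a ≠ b) (hac : a ≠ c) (had : a ≠ d) (hbc : b ≠ c)
    (hbd : b ≠ d) (hcd : c ≠ d) :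
    D.hw a b c d (pt a + pt b + pt d) = D.c c * (D.c a + D.c b) ^ 2 := by
  have : D.hw a b c d = D.hw a b d c := by
    funext g; rw [hw, hw]; ring
  rw [this, hw_c _ a b d c hab had hac hbd hbc hcd.symm]

theorem hw_e (a b c d e : Fin 6) (hac : a ≠ c) (had : a ≠ d) (hbc : b ≠ c)
    (hbd : b ≠ d) (hea : e ≠ a) (heb : e ≠ b) (hec : e ≠ c) (hed : e ≠ d) :
    D.hw a b c d (pt a + pt b + pt e) = 0 := by
  have e1 : pt a + pt b + pt e + (pt a + pt c) = pt b + pt e + pt c := by
    have : pt a + pt b + pt e + (pt a + pt c) = (pt a + pt a) + (pt b + pt e + pt c) := by abel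
    rw [this, gam_add_self, zero_add]
  have e2 : pt a + pt b + pt e + (pt a + pt d) = pt b + pt e + pt d := by
    have : pt a + pt b + pt e + (pt a + pt d) = (pt a + pt a) + (pt b + pt e + pt d) := by abel
    rw [this, gam_add_self, zero_add]
  have e3 : pt a + pt b + pt e + (pt b + pt c) = pt a + pt e + pt c := by
    have : pt a + pt b + pt e + (pt b + pt c) = (pt b + pt b) + (pt a + pt e + pt c) := by abel
    rw [this, gam_add_self, zero_add]
  have e4 : pt a + pt b + pt e + (pt b + pt d) = pt a + pt e + pt d := by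
    have : pt a + pt b + pt e + (pt b + pt d) = (pt b + pt b) + (pt a + pt e + pt d) := by abel
    rw [this, gam_add_self, zero_add]
  rw [hw, e1, e2, e3, e4, w_three, w_three, w_three, w_three]
  simp [hac, had, hbc, hbd, hea.symm, heb.symm, hec, hed]

theorem c_add_ne (a b : Fin 6) (hab : a ≠ b) : D.c a + D.c b ≠ 0 := by
  intro h
  have : D.c a = D.c b := by
    have := eq_neg_of_add_eq_zero_left h
    rw [this, D.neg_self]
  exact hab (D.c_inj this)

/-- independence of the automorphisms, from the dual bases -/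
theorem indep (hd : St_Dual) (y : Gam → L) (h : ∀ a, ∑ v, D.tau v a * y v = 0) (v : Gam) :
    y v = 0 := by
  obtain ⟨al, be, hab⟩ := hd D
  have e : ∀ u, ∑ j, D.tau v (al j) * D.tau u (be j) = if u = v then 1 else 0 := by
    intro u
    have := congrArg (D.tau v) (hab (u + v))
    rw [map_sum] at this
    have h2 : ∀ j, D.tau v (al j * D.tau (u + v) (be j)) = D.tau v (al j) * D.tau u (be j) := by
      intro j
      rw [map_mul, ← D.tau_add, add_comm u v, ← add_assoc, gam_add_self, zero_add]
    simp only [h2] at this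
    rw [this]
    by_cases h3 : u = v
    · rw [if_pos h3, if_pos (by rw [h3, gam_add_self]), map_one]
    · rw [if_neg h3, if_neg, map_zero]
      intro h4
      apply h3
      have := congrArg (· + v) h4
      simpa [add_assoc, gam_add_self] using this
  have : y v = ∑ u, (if u = v then 1 else 0) * y u := by simp
  rw [this]
  simp only [← e, Finset.sum_mul]
  rw [Finset.sum_comm]
  refine Finset.sum_eq_zero fun j _ => ?_
  have h3 := h (be j)
  have : ∑ u, D.tau v (al j) * D.tau u (be j) * y u =
      D.tau v (al j) * ∑ u, D.tau u (be j) * y u := by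
    rw [Finset.mul_sum]
    exact Finset.sum_congr rfl fun u _ => by ring
  rw [this, h3, mul_zero]

end Datum

end

end Pool.Agent.HWX
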