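import Pool.Agent.HWX.E1

/-! helper11. The big module is generated with dual coordinates; the restriction
to the six points is surjective. -/

set_option autoImplicit false

namespace Pool.Agent.HWX

open scoped Classical
open PowerSeries

noncomputable section

variable {L : Type} [Field L] (D : Datum L)

namespace Datum

theorem mapmap (g h : Gam) (x : PowerSeries L) :
    PowerSeries.map (D.tau g) (PowerSeries.map (D.tau h) x) = PowerSeries.map (D.tau (g + h)) x := by
  ext n
  simp only [coeff_map, D.tau_add]

theorem map_zero_gam (x : PowerSeries L) : PowerSeries.map (D.tau 0) x = x := by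
  ext n
  simp only [coeff_map, D.tau_zero]

/-- constant families -/
def cst (a : L) : D.RL := ⟨fun _ => C a, by
  refine ⟨fun g => rfl, fun u => ?_, ?_⟩
  · simp [coeff_C]
  · simp [coeff_C]⟩

/-- the coordinate in the ring -/
def crd (b : L) : D.RL →ₗ[D.R] D.R where
  toFun x := ⟨∑ g, PowerSeries.map (D.tau g) (x.1 g * C b), by
    have hx := x.2
    rw [D.mem_RL] at hx
    obtain ⟨h0, h1, h2⟩ := hx
    have e : ∀ n, coeff n (∑ g, PowerSeries.map (D.tau g) (x.1 g * C b)) =
        ∑ g, D.tau g (coeff n (x.1 g) * b) := fun n => by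
      rw [map_sum]
      exact Finset.sum_congr rfl fun g _ => by rw [coeff_map, coeff_mul_C]
    rw [D.mem_R, e, e, e]
    refine ⟨?_, ?_, ?_⟩
    · simp only [h0]
      exact D.Fx_Tr _
    · have e1 : D.A (∑ g, D.tau g (coeff 1 (x.1 g) * b)) =
          ∑ i, ∑ g, D.c i * D.tau (pt i + g) (coeff 1 (x.1 g) * b) := by
        rw [Datum.A]
        refine Finset.sum_congr rfl fun i _ => ?_
        rw [map_sum, Finset.mul_sum]
        exact Finset.sum_congr rfl fun g _ => by rw [D.tau_add]
      have e2 : ∀ i, ∑ g, D.c i * D.tau (pt i + g) (coeff 1 (x.1 g) * b) =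
          ∑ g, D.tau g ((D.c i * coeff 1 (x.1 (pt i + g))) * b) := fun i => by
        refine Fintype.sum_equiv (Equiv.addLeft (pt i)) _ _ fun g => ?_
        rw [Equiv.coe_addLeft, ← add_assoc, gam_add_self, zero_add, map_mul, map_mul, map_mul,
          D.tau_c]
        ring
      rw [e1]
      simp only [e2]
      rw [Finset.sum_comm]
      refine Finset.sum_eq_zero fun g _ => ?_
      rw [← map_sum, ← Finset.sum_mul, h1 g, zero_mul, map_zero]
    · rw [D.Tr_sum]
      simp only [D.Tr_tau]
      rw [← D.Tr_sum, ← Finset.sum_mul, h2, zero_mul, D.Tr_zero]⟩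
  map_add' x y := by
    apply Subtype.ext
    simp only [Subring.coe_add, ← Finset.sum_add_distrib]
    refine Finset.sum_congr rfl fun g _ => ?_
    rw [← map_add, ← add_mul]
    rfl
  map_smul' r x := by
    apply Subtype.ext
    simp only [RingHom.id_apply, smul_eq_mul, Subring.coe_mul, Finset.mul_sum]
    refine Finset.sum_congr rfl fun g _ => ?_
    have : (r • x).1 g = PowerSeries.map (D.tau g) (r : PowerSeries L) * x.1 g := rfl
    rw [this, mul_assoc, map_mul, mapmap, gam_add_self, map_zero_gam]

/-- every element is a combination of the constant families -/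
theorem expand (hd : St_Dual) : ∃ al be : Gam → L, ∀ x : D.RL,
    x = ∑ j, D.crd (be j) x • D.cst (al j) := by
  obtain ⟨al, be, h⟩ := hd D
  refine ⟨al, be, fun x => ?_⟩
  apply Subtype.ext
  funext g'
  have e : ((∑ j, D.crd (be j) x • D.cst (al j) : D.RL)).1 g' =
      ∑ j, PowerSeries.map (D.tau g') (D.crd (be j) x : PowerSeries L) * C (al j) := by
    have : ∀ s : Finset Gam, ((∑ j ∈ s, D.crd (be j) x • D.cst (al j) : D.RL)).1 g' =
        ∑ j ∈ s, PowerSeries.map (D.tau g') (D.crd (be j) x : PowerSeries L) * C (al j) := by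
      intro s
      induction s using Finset.induction_on with
      | empty => rfl
      | insert a s ha ih =>
        rw [Finset.sum_insert ha, Finset.sum_insert ha, ← ih]
        rfl
    exact this _
  rw [e]
  have e1 : ∀ j, PowerSeries.map (D.tau g') (D.crd (be j) x : PowerSeries L) * C (al j) =
      ∑ g, PowerSeries.map (D.tau (g' + g)) (x.1 g) * C (al j * D.tau (g' + g) (be j)) := by
    intro j
    have : (D.crd (be j) x : PowerSeries L) = ∑ g, PowerSeries.map (D.tau g) (x.1 g * C (be j)) :=
      rfl
    rw [this, map_sum, Finset.sum_mul]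
    refine Finset.sum_congr rfl fun g _ => ?_
    rw [mapmap, map_mul, map_C, map_mul]
    ring
  simp only [e1]
  rw [Finset.sum_comm]
  have e2 : ∀ g, ∑ j, PowerSeries.map (D.tau (g' + g)) (x.1 g) *
      C (al j * D.tau (g' + g) (be j)) = if g = g' then x.1 g else 0 := by
    intro g
    rw [← Finset.mul_sum, ← map_sum, h]
    by_cases hg : g = g'
    · rw [hg, gam_add_self, if_pos rfl, if_pos rfl, map_zero_gam, map_one, mul_one]
    · rw [if_neg hg, if_neg, map_zero, mul_zero]
      intro h4
      apply hg
      have := congrArg (g' + ·) h4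
      simpa [← add_assoc, gam_add_self] using this
  simp only [e2]
  simp

/-- the restriction map is surjective -/
theorem res_surj : Function.Surjective D.res := by
  intro m
  obtain ⟨h0, h1⟩ := m.2
  -- index of a point
  have hc := D.c_ne 0
  let m1 : Fin 6 → L := fun i => coeff 1 (m.1 i)
  let f : Gam → L := fun g => ∑ b : Fin 6, (if b = 0 then 0 else (m1 b / D.c 0) *
    D.w (g + (pt 0 + pt b)))
  have hf : ∀ u, ∑ i, D.c i * f (pt i + u) = 0 := by
    intro u
    simp only [f, Finset.mul_sum]
    rw [Finset.sum_comm]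
    refine Finset.sum_eq_zero fun b _ => ?_
    by_cases hb : b = 0
    · simp [hb]
    · simp only [if_neg hb]
      have : ∀ i, D.c i * (m1 b / D.c 0 * D.w (pt i + u + (pt 0 + pt b))) =
          m1 b / D.c 0 * (D.c i * D.w (pt i + u + (pt 0 + pt b))) := fun i => by ring
      simp only [this, ← Finset.mul_sum, w_code, mul_zero]
  have hfp : ∀ i, f (pt i) = m1 i := by
    intro i
    have e : ∀ b : Fin 6, (if b = 0 then 0 else (m1 b / D.c 0) *
        D.w (pt i + (pt 0 + pt b))) =
        (if i = 0 then (if b = 0 then 0 else m1 b * D.c b / D.c 0) else 0) +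
        (if b = i then (if i = 0 then 0 else m1 i) else 0) := by
      intro b
      by_cases hb : b = 0
      · subst hb
        by_cases hi : i = 0
        · simp [hi]
        · have : ¬ (0 : Fin 6) = i := fun h => hi h.symm
          simp [hi, this]
      · rw [if_neg hb, ← add_assoc, w_three]
        by_cases hi : i = 0
        · subst hi
          have : ¬ (0 : Fin 6) = b := fun h => hb h.symm
          simp [hb, this]
          ring
        · by_cases hib : i = b
          · subst hib
            have : ¬ (0 : Fin 6) = i := fun h => hi h.symm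
            simp [hi, this]
            field_simp
          · have h3 : ¬ b = i := fun h => hib h.symm
            have : ¬ (0 : Fin 6) = b := fun h => hb h.symm
            simp [hi, hib, h3, this]
    simp only [f, e, Finset.sum_add_distrib]
    by_cases hi : i = 0
    · subst hi
      have h1' : ∑ b, D.c b * m1 b = 0 := h1
      simp only [if_true, Finset.sum_ite_eq', Finset.mem_univ, add_zero]
      have e5 : ∑ b : Fin 6, (if b = 0 then 0 else m1 b * D.c b / D.c 0) = m1 0 := by
        rw [Fin.sum_univ_six] at h1' ⊢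
        simp
        field_simp
        have h2 := D.add_self (D.c 0 * m1 0)
        linear_combination h1' - h2
      rw [e5]
    · simp [hi]
  let s2 : L := ∑ i, coeff 2 (m.1 i)
  obtain ⟨g0, _, hg0⟩ := out_other 0
  let x : Gam → PowerSeries L := fun g =>
    if h : ∃ i, pt i = g then m.1 h.choose
    else C (coeff 0 (m.1 0)) + C (f g) * X + (if g = g0 then C s2 * X ^ 2 else 0)
  have hxp : ∀ i, x (pt i) = m.1 i := by
    intro i
    have h : ∃ j, pt j = pt i := ⟨i, rfl⟩
    have h2 : h.choose = i := pt_inj _ _ h.choose_spec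
    simp only [x, dif_pos h, h2]
  have hxo : ∀ g, (∀ i, pt i ≠ g) → x g = C (coeff 0 (m.1 0)) + C (f g) * X +
      (if g = g0 then C s2 * X ^ 2 else 0) := by
    intro g hg
    have h : ¬ ∃ i, pt i = g := fun ⟨i, hi⟩ => hg i hi
    simp only [x, dif_neg h]
  have hx0 : ∀ g, coeff 0 (x g) = coeff 0 (m.1 0) := by
    intro g
    by_cases h : ∃ i, pt i = g
    · obtain ⟨i, rfl⟩ := h
      rw [hxp, h0]
    · rw [hxo g fun i hi => h ⟨i, hi⟩]
      split_ifs <;> simp [coeff_X_pow, coeff_C]
  have hx1 : ∀ g, coeff 1 (x g) = f g := by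
    intro g
    by_cases h : ∃ i, pt i = g
    · obtain ⟨i, rfl⟩ := h
      rw [hxp, hfp]
    · rw [hxo g fun i hi => h ⟨i, hi⟩]
      split_ifs <;> simp [coeff_X_pow, coeff_C, coeff_one_X]
  have hx2 : ∑ g, coeff 2 (x g) = 0 := by
    have e : ∀ g, coeff 2 (x g) = (∑ i, if pt i = g then coeff 2 (m.1 i) else 0) +
        (if g = g0 then s2 else 0) := by
      intro g
      by_cases h : ∃ i, pt i = g
      · obtain ⟨i, rfl⟩ := h
        rw [hxp, Finset.sum_eq_single i]
        · simp [hg0 i]
        · intro j _ hj
          rw [if_neg fun h => hj (pt_inj _ _ h)]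
        · simp
      · rw [hxo g fun i hi => h ⟨i, hi⟩]
        rw [Finset.sum_eq_zero fun i _ => if_neg fun hi => h ⟨i, hi⟩]
        split_ifs <;> simp [coeff_X_pow, coeff_C, coeff_X]
    simp only [e, Finset.sum_add_distrib]
    rw [Finset.sum_comm]
    simp only [Finset.sum_ite_eq, Finset.sum_ite_eq', Finset.mem_univ, if_true]
    exact D.add_self s2
  refine ⟨⟨x, fun g => by rw [hx0, hx0], fun u => ?_, hx2⟩, ?_⟩
  · simp only [hx1]
    exact hf u
  · apply Subtype.ext
    funext i
    exact hxp i

end Datum

end

end Pool.Agent.HWX
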