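import Pool.Agent.HWX.Rg
import Pool.Agent.HWX.St
import Pool.Agent.HWC.Defs

/-!
helper11. Statements of the ring modules of HWX (counterexample to (HWC) in
dimension one). Every statement carries its complete proof in the docstring.
`HWX/F.lean` contains the proved field facts (`D.Fx_Tr`, `D.A_A`, `D.adj`,
`D.ker_im`, `D.VV`, `D.A_lam_ne`, ...), `HWX/Rg.lean` the ring `D.R` and the
modules. Do not change this file.
-/

set_option autoImplicit false

namespace Pool.Agent.HWX

open scoped Classical
open PowerSeries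

/-- PERP. Perpendicular facts for the trace form.

Proof. Let `al, be` be as in `St_Dual` (hypothesis). (0) if `D.Tr (z * y) = 0`
for all `y` then `z = 0`: `z = sum_g tau g z * (if g = 0 then 1 else 0)
= sum_g tau g z * sum_j al j * tau g (be j) = sum_j al j * D.Tr (z * be j) = 0`.
(1) `Tr (D.A a * y) = Tr (a * D.A y)` (`D.adj`) and `D.A (D.A y) = 0`
(`D.A_A`), so `Tr (D.A a * y) = 0` for all `y`, and (0). (2) for `y : L` and
`g : Gam` put `b = y + tau g y`; `Tr b = Tr y + Tr y = 0` (`D.Tr_tau`,
`D.add_self`), so `0 = Tr (a * y) + Tr (a * tau g y)`, and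
`Tr (a * tau g y) = Tr (tau g a * y)` (apply `D.Tr_tau g` to `a * tau g y` and
use `D.tau_tau`), so `Tr ((a + tau g a) * y) = 0` for all `y`, so
`a + tau g a = 0`, and `tau g a = a` by `D.neg_self`. (3) by (0) with `z = 1`
there is `y` with `Tr y` nonzero; `e = (Tr y)⁻¹ * y` (`D.Fx_Tr`, `D.Fx_inv`,
`D.Tr_mul_fx`). (4) `a = sum_g tau g a * (if g = 0 then 1 else 0)` as in (0). -/
def St_Perp : Prop := St_Dual → ∀ {L : Type} [Field L] (D : Datum L),
  (∀ z : L, (∀ y, D.Tr (z * y) = 0) → z = 0) ∧
  (∀ a : L, (∀ b, D.A b = 0 → D.Tr (a * b) = 0) → D.A a = 0) ∧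
  (∀ a : L, (∀ b, D.Tr b = 0 → D.Tr (a * b) = 0) → D.Fx a) ∧
  (∃ e : L, D.Tr e = 1) ∧
  (∃ al be : Gam → L, ∀ a : L, a = ∑ j, al j * D.Tr (be j * a))

/-- UNIT. Units of the ring.

Proof. If `x * y = 1` then the constant coefficients multiply to `1`.
Conversely let `x0 = coeff 0 x` be nonzero and let `y = (x : L⟦X⟧)⁻¹` (inverse
of power series over a field, `PowerSeries.mul_inv_cancel`). Compare the
coefficients `0, 1, 2` in `x * y = 1` (as in `R.mul_mem'` in `HWX/Rg.lean`):
`x0 * y0 = 1`, `x0 * y1 + y0 * x1 = 0`, `x0 * y2 + x1 * y1 + y0 * x2 = 0`. So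
`y0 = x0⁻¹` is fixed, `y1 = - x0⁻¹ * y0 * x1` is killed by `A`, and
`y2 = - x0⁻¹ * (x1 * y1 + y0 * x2)` has trace `0` because of `D.VV`
(`D.Tr_mul_fx`, `D.A_mul_fx`). So `y` is in `D.R`. -/
def St_Unit : Prop := ∀ {L : Type} [Field L] (D : Datum L) (x : D.R),
  IsUnit x ↔ coeff 0 (x : PowerSeries L) ≠ 0

/-- DIVIDE. Large powers of nonunits are divisible.

Proof. A power series `q` with `coeff 0 q = coeff 1 q = coeff 2 q = 0` is in
`D.R`. Let `n` be the order of `s` (least index of a nonzero coefficient), so
`s = X ^ n * u` with `u` of nonzero constant coefficient, hence `u` has an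
inverse `v` in `L⟦X⟧`. `x = X * x'`, so `x ^ (n + 3) = X ^ (n + 3) * x' ^ (n + 3)
= s * (X ^ 3 * (v * x' ^ (n + 3)))`, and the second factor is in `D.R`. -/
def St_Divide : Prop := ∀ {L : Type} [Field L] (D : Datum L) (x s : D.R),
  coeff 0 (x : PowerSeries L) = 0 → s ≠ 0 → ∃ N : ℕ, s ∣ x ^ N

/-- NOETHER. The ring is Noetherian.

Proof. By Cohen's theorem (`IsNoetherianRing.of_prime` or
`isNoetherianRing_iff...`, search Mathlib for `of_prime`) it is enough that all
prime ideals `P` are finitely generated. If `P = bot`, clear. Otherwise `P`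
contains `s` nonzero. By `St_Divide` every `x` with constant coefficient `0` has
a power divisible by `s`, so `x` is in `P`; and every element of `P` is a
nonunit, so has constant coefficient `0` by `St_Unit`. So
`P = {x | coeff 0 x = 0}`. This ideal is generated by the finitely many
elements `C (D.A (al j)) * X`, `C (h j) * X ^ 2`, `C (al j) * X ^ n`
(`n = 3, 4, 5`, `j : Gam`), where `al, be` are from `St_Perp` and
`h j = al j - D.Tr (al j) * e` with `D.Tr e = 1` (they are in `D.R` because
`D.A (D.A _) = 0` and `D.Tr (h j) = 0`): let `x = sum_n x_n X ^ n` with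
`x_0 = 0`. `x_1 = D.A b` (`D.ker_im`), `b = sum_j al j * k_j` with
`k_j = D.Tr (be j * b)` fixed, so `x_1 = sum_j k_j * D.A (al j)`;
`x_2 = sum_j al j * k'_j` with `k'_j` fixed and
`sum_j k'_j * D.Tr (al j) = D.Tr x_2 = 0`, so `x_2 = sum_j k'_j * h j`;
`x_n = sum_j k_(n,j) * al j` for `n = 3, 4, 5`. The constants `C k` for fixed
`k` are in `D.R`. The rest `sum_(n >= 6) x_n X ^ n = X ^ 3 * (X ^ 3 * y)` where
`X ^ 3 * y` is in `D.R` and `X ^ 3` is in the ideal generated by the
`C (al j) * X ^ 3` (write `1 = sum_j al j * k_j`). -/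
def St_Noether : Prop := St_Dual → St_Perp → St_Unit → St_Divide →
  ∀ {L : Type} [Field L] (D : Datum L), IsNoetherianRing D.R

/-- the parameter -/
noncomputable def x3 {L : Type} [Field L] (D : Datum L) : D.R :=
  ⟨X ^ 3, by simp [D.mem_R, coeff_X_pow, D.Fx_zero, D.A_zero, D.Tr_zero]⟩

/-- GORENSTEIN. The ideal generated by `X ^ 3` is irreducible.

Proof. (a) Duality: if `a : D.R` satisfies `D.Tr (coeff 5 (r * a)) = 0` for all
`r : D.R`, then `x3 D` divides `a`. Write `a_n` for the coefficients. Take
`r = C b * X ^ (5 - n)` with `b : L` arbitrary, `n = 0, 1, 2`: in `D.R`, and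
`coeff 5 (r * a) = b * a_n`, so `a_n = 0` by `St_Perp`. Take `r = C b * X ^ 2`
with `D.Tr b = 0`: `D.Fx a_3`. Take `r = C b * X` with `D.A b = 0`:
`D.A a_4 = 0`. Take `r = 1`: `D.Tr a_5 = 0`. So `a = X ^ 3 * q` with `q` in
`D.R`. (b) Let `e` have trace `1`, and let `w : D.R` be `C e * X ^ 5`. Then
`w` is not divisible by `x3 D` (the quotient would be `C e * X ^ 2`). (c) every
ideal `J` with `span {x3 D} < J` contains `w`: choose `a` in `J`, not in
`span {x3 D}`, divisible in `L⟦X⟧` by `X ^ n` with `n` maximal; `n < 6` since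
`X ^ 6 * L⟦X⟧` is contained in `x3 D * D.R`. For `r : D.R` with constant
coefficient `0` the product `r * a` is in `J` and divisible by `X ^ (n + 1)`, so
it is in `span {x3 D}` by maximality, so it is `X ^ 3 * q` with `q` in `D.R` and
`D.Tr (coeff 5 (r * a)) = D.Tr (coeff 2 q) = 0`. Put `k = D.Tr (coeff 5 a)`
(fixed), `b = a - C k * w`. For `r : D.R` write `r = C r_0 + r'`, then
`D.Tr (coeff 5 (r * b)) = r_0 * (k - k * D.Tr e) + D.Tr (coeff 5 (r' * a))
- D.Tr (coeff 5 (r' * C k * w)) = 0 + 0 - 0` (the last because `r' * w` is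
divisible by `X ^ 6`). By (a) `b` is in `span {x3 D}`, so `C k * w` is in `J`;
`k` is not `0` (otherwise `a` is in `span {x3 D}`), and `C k⁻¹` is in `D.R`, so
`w` is in `J`. (d) If `J ⊓ J' = span {x3 D}` and both are different from it,
both contain `w`, contradiction to (b). `span {x3 D}` is not maximal among
ideals (not `⊤`), since `x3 D` is not a unit. -/
def St_Gor : Prop := St_Perp → St_Dual → St_Unit → ∀ {L : Type} [Field L] (D : Datum L),
  InfIrred (Ideal.span {x3 D})

/-- PACKAGE. The ring is a one-dimensional Gorenstein local domain in the sense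
of the frozen statement.

Proof. `IsLocalRing`: nonunits are the elements with constant coefficient `0`
(`St_Unit`), closed under addition (`IsLocalRing.of_nonunits_add`). Krull
dimension: the ring is a domain, not a field (`x3 D` is a nonzero nonunit), and
every nonzero prime `P` is the maximal ideal: it contains some nonzero `s`, and
for `x` in the maximal ideal `s` divides a power of `x` (`St_Divide`), so
`x` is in `P`. Hence the Krull dimension is `1` (search Mathlib for
`Ring.DimensionLEOne`, `ringKrullDim`, `Ring.KrullDimLE`; a chain of primes has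
at most two members, and `bot < maximalIdeal` is a chain of length one). The
list is `xs = [x3 D]`: it is a regular sequence (`x3 D` is a nonzerodivisor on a
domain, and the quotient is nontrivial since `x3 D` is not a unit), of length
`1`, and `{r | r ∈ [x3 D]} = {x3 D}`. -/
def St_Pack : Prop := St_Unit → St_Divide → ∀ {L : Type} [Field L] (D : Datum L),
  InfIrred (Ideal.span {x3 D}) →
  ∃ _ : IsLocalRing D.R,
    (∀ x : D.R, x ∈ IsLocalRing.maximalIdeal D.R ↔ coeff 0 (x : PowerSeries L) = 0) ∧
    HWC.GorOne D.R ∧ HWC.Pkg D.R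

/-- MODULE. The module is finitely generated, torsionfree and not free.

Proof. Finite: `D.R` is Noetherian (hypothesis) and `D.M` is a submodule of
`D.Tw pt`, so it is enough that `D.Tw pt` is a finite `D.R`-module. It is
generated by the elements `Pi.single i (C (al j) * X ^ n)` with `i : Fin 6`,
`j : Gam`, `n = 0, 1, 2` and `al, be` from `St_Perp`: for `x : D.Tw pt` the
coefficient `n < 3` of `x i` is `sum_j al j * k` with fixed `k`, and `C k` is in
`D.R` and acts as multiplication by `C k`; the rest of `x i` is `X ^ 3 * y`,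
which is `r • Pi.single i 1` with
`r = X ^ 3 * PowerSeries.map (tau (pt i)) y` in `D.R` (`tau (pt i)` is an
involution), and `1 = sum_j al j * k_j`. Torsionfree: if `r • x = 0` then
`map (tau (pt i)) r * x i = 0` for every `i`, and `map` of an injective ring
homomorphism is injective. Not free: let `b` be a basis of `D.M`; its index type
is nonempty since `D.M` has a nonzero element (all components `1`; it is in
`D.M` because of `D.c_sum`; or all components `X ^ 2`). Let `m = b i0` and let
`e` be of trace `1`. Let `y` be the element of `D.M` with components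
`y i = C (tau (pt i) e) * X ^ 2 * m i` (coefficients `0` and `1` vanish, so it is
in `D.M`). Then `(x3 D) • y = r • m` with `r = C e * X ^ 5` in `D.R`. Apply the
coordinate functional `b.coord i0` : `x3 D * z = r` with `z` in `D.R`, so
`z = C e * X ^ 2`, contradiction to `D.Tr e = 1`. -/
def St_Mod : Prop := St_Perp → St_Dual → ∀ {L : Type} [Field L] (D : Datum L),
  IsNoetherianRing D.R →
  Module.Finite D.R D.M ∧ NoZeroSMulDivisors D.R D.M ∧ ¬ Module.Free D.R D.M

end Pool.Agent.HWX
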