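import Pool.Agent.HWX.E2
import Pool.Agent.HWX.St2

/-! helper11. Linear maps from the kernel of the restriction: the matrix `z`,
and its coefficients. -/

set_option autoImplicit false

namespace Pool.Agent.HWX

open scoped Classical
open PowerSeries

noncomputable section

variable {L : Type} [Field L] (D : Datum L)

namespace Datum

/-- elements of the kernel of the restriction -/
def mkK (x : D.Tw (fun g : Gam => g)) (hx : x ∈ D.RL) (hz : ∀ i, x (pt i) = 0) :
    LinearMap.ker D.res := ⟨⟨x, hx⟩, by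
  rw [LinearMap.mem_ker]
  apply Subtype.ext
  funext i
  exact hz i⟩

theorem ker_pt (x : LinearMap.ker D.res) (i : Fin 6) : x.1.1 (pt i) = 0 := by
  have h := x.2
  rw [LinearMap.mem_ker] at h
  have := congrArg (fun y : D.M => y.1 i) h
  exact this

/-- the element concentrated at `g` -/
def dl (g : Gam) : D.Tw (fun g : Gam => g) := fun g' => if g' = g then X ^ 3 else 0

theorem dl_mem (g : Gam) : D.dl g ∈ D.RL := by
  have e : ∀ g' : Gam, ∀ n : ℕ, n < 3 → coeff n (D.dl g g') = 0 := by
    intro g' n hn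
    simp only [dl]
    split_ifs
    · rw [coeff_X_pow, if_neg (by omega)]
    · rw [map_zero]
  refine ⟨fun g' => by rw [e _ 0 (by omega), e _ 0 (by omega)], fun u => ?_, ?_⟩
  · exact Finset.sum_eq_zero fun i _ => by rw [e _ 1 (by omega), mul_zero]
  · exact Finset.sum_eq_zero fun i _ => by rw [e _ 2 (by omega)]

/-- the same, inside the kernel -/
def dlK (g : Gam) : LinearMap.ker D.res :=
  if hg : ∀ i, pt i ≠ g then D.mkK (D.dl g) (D.dl_mem g) (fun i => by
    simp only [dl, if_neg (hg i)]) else 0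

theorem dlK_out (g : Gam) (hg : ∀ i, pt i ≠ g) (g' : Gam) :
    (D.dlK g).1.1 g' = if g' = g then X ^ 3 else 0 := by
  rw [dlK, dif_pos hg]; rfl

theorem dlK_in (g : Gam) (hg : ¬ ∀ i, pt i ≠ g) : D.dlK g = 0 := by
  rw [dlK, dif_neg hg]

theorem coe_sumK (s : Finset Gam) (F : Gam → LinearMap.ker D.res) (g' : Gam) :
    (∑ g ∈ s, F g).1.1 g' = ∑ g ∈ s, (F g).1.1 g' := by
  induction s using Finset.induction_on with
  | empty => rfl
  | insert a s ha ih =>
    rw [Finset.sum_insert ha, Finset.sum_insert ha, ← ih]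
    rfl

theorem coe_sumM {ι : Type} (s : Finset ι) (F : ι → D.M) (i : Fin 6) :
    (∑ g ∈ s, F g).1 i = ∑ g ∈ s, (F g).1 i := by
  induction s using Finset.induction_on with
  | empty => rfl
  | insert a s ha ih =>
    rw [Finset.sum_insert ha, Finset.sum_insert ha, ← ih]
    rfl

theorem x3_smul {ι : Type} (p : ι → Gam) (y : D.Tw p) (i : ι) :
    ((x3 D) • y) i = X ^ 3 * y i := by
  rw [smul_apply]
  simp [x3]

/-- the coefficient attached to `g` -/
def rr (x : LinearMap.ker D.res) (g : Gam) : D.R :=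
  ⟨X ^ 3 * PowerSeries.map (D.tau g) (x.1.1 g), by
    rw [D.mem_R]
    refine ⟨?_, ?_, ?_⟩
    · rw [coeff_X_pow_mul', if_neg (by omega)]; exact D.Fx_zero
    · rw [coeff_X_pow_mul', if_neg (by omega), D.A_zero]
    · rw [coeff_X_pow_mul', if_neg (by omega), D.Tr_zero]⟩

theorem decomp (x : LinearMap.ker D.res) :
    (x3 D) • ((x3 D) • x) = ∑ g, D.rr x g • D.dlK g := by
  apply Subtype.ext
  apply Subtype.ext
  funext g'
  rw [coe_sumK]
  have e1 : ((x3 D) • ((x3 D) • x)).1.1 g' = X ^ 3 * (X ^ 3 * x.1.1 g') := by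
    have : ((x3 D) • ((x3 D) • x)).1.1 g' = ((x3 D) • ((x3 D) • (x.1.1))) g' := rfl
    rw [this, x3_smul, x3_smul]
  rw [e1]
  have e2 : ∀ g, (D.rr x g • D.dlK g).1.1 g' =
      if g' = g then X ^ 3 * (X ^ 3 * x.1.1 g') else 0 := by
    intro g
    have e3 : (D.rr x g • D.dlK g).1.1 g' =
        PowerSeries.map (D.tau g') (D.rr x g : PowerSeries L) * (D.dlK g).1.1 g' := rfl
    rw [e3]
    by_cases hg : ∀ i, pt i ≠ g
    · rw [D.dlK_out g hg]
      split_ifs with h
      · subst h
        have : (D.rr x g' : PowerSeries L) = X ^ 3 * PowerSeries.map (D.tau g') (x.1.1 g') := rfl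
        rw [this, map_mul, mapmap, gam_add_self, map_zero_gam, map_pow, map_X]
        ring
      · rw [mul_zero]
    · rw [D.dlK_in g hg]
      have e4 : ((0 : LinearMap.ker D.res)).1.1 g' = 0 := rfl
      rw [e4, mul_zero]
      split_ifs with h
      · subst h
        simp only [not_forall, not_not] at hg
        obtain ⟨i, hi⟩ := hg
        rw [← hi, D.ker_pt, mul_zero, mul_zero]
      · rfl
  simp only [e2]
  simp

variable (phi : LinearMap.ker D.res →ₗ[D.R] D.M)

/-- the matrix of a linear map from the kernel -/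
def z (i : Fin 6) (g : Gam) : PowerSeries L := (phi (D.dlK g)).1 i

theorem z_in (i : Fin 6) (g : Gam) (hg : ¬ ∀ i, pt i ≠ g) : D.z phi i g = 0 := by
  rw [z, D.dlK_in g hg, map_zero]; rfl

theorem star (x : LinearMap.ker D.res) (i : Fin 6) :
    X ^ 3 * (phi x).1 i =
      ∑ g, PowerSeries.map (D.tau (pt i + g)) (x.1.1 g) * D.z phi i g := by
  have h := congrArg (fun y => (phi y).1 i) (D.decomp x)
  simp only [map_smul, map_sum] at h
  rw [coe_sumM] at h
  have e1 : ((x3 D) • ((x3 D) • phi x)).1 i = X ^ 3 * (X ^ 3 * (phi x).1 i) := by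
    have : ((x3 D) • ((x3 D) • phi x)).1 i = ((x3 D) • ((x3 D) • ((phi x).1))) i := rfl
    rw [this, x3_smul, x3_smul]
  rw [e1] at h
  have e2 : ∀ g, (D.rr x g • phi (D.dlK g)).1 i =
      X ^ 3 * (PowerSeries.map (D.tau (pt i + g)) (x.1.1 g) * D.z phi i g) := by
    intro g
    have e3 : (D.rr x g • phi (D.dlK g)).1 i =
        PowerSeries.map (D.tau (pt i)) (D.rr x g : PowerSeries L) * (phi (D.dlK g)).1 i := rfl
    have : (D.rr x g : PowerSeries L) = X ^ 3 * PowerSeries.map (D.tau g) (x.1.1 g) := rfl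
    rw [e3, this, map_mul, mapmap, map_pow, map_X, z]
    ring
  simp only [e2, ← Finset.mul_sum] at h
  exact mul_left_cancel₀ (pow_ne_zero 3 X_ne_zero) h

/-- homogeneous elements -/
def hom (a : L) (f : Gam → L) (j : ℕ) : D.Tw (fun g : Gam => g) := fun g => C (a * f g) * X ^ j

theorem hom2_mem (a : L) (f : Gam → L) (hf : ∑ g, f g = 0) : D.hom a f 2 ∈ D.RL := by
  have e : ∀ g n, coeff n (D.hom a f 2 g) = if n = 2 then a * f g else 0 := by
    intro g n
    simp only [hom, coeff_C_mul, coeff_X_pow]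
    split_ifs <;> simp
  refine ⟨fun g => by simp [e], fun u => by simp [e], ?_⟩
  simp only [e, if_true]
  rw [← Finset.mul_sum, hf, mul_zero]

theorem hom1_mem (a : L) (f : Gam → L) (hf : ∀ u, ∑ i, D.c i * f (pt i + u) = 0) :
    D.hom a f 1 ∈ D.RL := by
  have e : ∀ g n, coeff n (D.hom a f 1 g) = if n = 1 then a * f g else 0 := by
    intro g n
    simp only [hom, coeff_C_mul, coeff_X_pow]
    split_ifs <;> simp
  refine ⟨fun g => by simp [e], fun u => ?_, by simp [e]⟩
  simp only [e, if_true]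
  have : ∀ i, D.c i * (a * f (pt i + u)) = a * (D.c i * f (pt i + u)) := fun i => by ring
  simp only [this, ← Finset.mul_sum, hf u, mul_zero]

theorem star_hom (a : L) (f : Gam → L) (hfx : ∀ g, D.Fx (f g)) (j : ℕ)
    (hm : D.hom a f j ∈ D.RL) (hz : ∀ i, D.hom a f j (pt i) = 0) (i : Fin 6) (n : ℕ) :
    coeff (n + j) (X ^ 3 * (phi (D.mkK _ hm hz)).1 i) =
      ∑ v, D.tau v a * (f (pt i + v) * coeff n (D.z phi i (pt i + v))) := by
  rw [D.star phi, map_sum]
  refine Fintype.sum_equiv (Equiv.addLeft (pt i)) _ _ fun g => ?_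
  rw [Equiv.coe_addLeft, ← add_assoc, gam_add_self, zero_add]
  have e1 : (D.mkK _ hm hz).1.1 g = C (a * f g) * X ^ j := rfl
  have e3 : PowerSeries.map (D.tau (pt i + g)) (C (a * f g) * X ^ j) =
      C (D.tau (pt i + g) a * f g) * X ^ j := by
    rw [map_mul, map_pow, map_X, map_C, map_mul, hfx g]
  rw [e1, e3]
  have e2 : C (D.tau (pt i + g) a * f g) * X ^ j * D.z phi i g =
      X ^ j * (C (D.tau (pt i + g) a * f g) * D.z phi i g) := by ring
  rw [e2, coeff_X_pow_mul', if_pos (by omega), Nat.add_sub_cancel, coeff_C_mul]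
  ring

variable (hd : St_Dual)
include hd

theorem z0 (i : Fin 6) (g : Gam) (hg : ∀ i, pt i ≠ g) : coeff 0 (D.z phi i g) = 0 := by
  obtain ⟨h, hhg, hh⟩ := out_other g
  let f : Gam → L := fun u => (if u = g then 1 else 0) + (if u = h then 1 else 0)
  have hfx : ∀ u, D.Fx (f u) := fun u => by
    refine D.Fx_add ?_ ?_
    · split_ifs
      · exact D.Fx_one
      · exact D.Fx_zero
    · split_ifs
      · exact D.Fx_one
      · exact D.Fx_zero
  have hfs : ∑ u, f u = 0 := by
    simp only [f, Finset.sum_add_distrib, Finset.sum_ite_eq', Finset.mem_univ, if_true]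
    exact D.add_self 1
  have hfp : ∀ i, f (pt i) = 0 := fun i => by
    simp only [f, if_neg (hg i), if_neg (hh i), add_zero]
  have key := D.indep hd (fun v => f (pt i + v) * coeff 0 (D.z phi i (pt i + v))) (fun a => by
    have := D.star_hom phi a f hfx 2 (D.hom2_mem a f hfs)
      (fun i => by simp [hom, hfp]) i 0
    rw [← this, coeff_X_pow_mul', if_neg (by omega)]) (pt i + g)
  have e : pt i + (pt i + g) = g := by rw [← add_assoc, gam_add_self, zero_add]
  simp only [e] at key
  have hfg : f g = 1 := by simp [f, hhg.symm]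
  simpa [hfg] using key

theorem z1 (i : Fin 6) (g : Gam) (hg : ∀ i, pt i ≠ g) : coeff 1 (D.z phi i g) = 0 := by
  obtain ⟨h, hhg, hh⟩ := out_other g
  let f : Gam → L := fun u => (if u = g then 1 else 0) + (if u = h then 1 else 0)
  have hfx : ∀ u, D.Fx (f u) := fun u => by
    refine D.Fx_add ?_ ?_
    · split_ifs
      · exact D.Fx_one
      · exact D.Fx_zero
    · split_ifs
      · exact D.Fx_one
      · exact D.Fx_zero
  have hfs : ∑ u, f u = 0 := by
    simp only [f, Finset.sum_add_distrib, Finset.sum_ite_eq', Finset.mem_univ, if_true]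
    exact D.add_self 1
  have hfp : ∀ i, f (pt i) = 0 := fun i => by
    simp only [f, if_neg (hg i), if_neg (hh i), add_zero]
  -- the constant coefficients of the image are independent of the component
  obtain ⟨i', j', hij⟩ := meet (pt i + g)
  have key := D.indep hd (fun v => f (pt i + v) * coeff 1 (D.z phi i (pt i + v))
      - f (pt i' + v) * coeff 1 (D.z phi i' (pt i' + v))) (fun a => by
    have h1 := D.star_hom phi a f hfx 2 (D.hom2_mem a f hfs)
      (fun i => by simp [hom, hfp]) i 1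
    have h2 := D.star_hom phi a f hfx 2 (D.hom2_mem a f hfs)
      (fun i => by simp [hom, hfp]) i' 1
    have h3 := (phi (D.mkK _ (D.hom2_mem a f hfs) (fun i => by simp [hom, hfp]))).2.1
    rw [coeff_X_pow_mul', if_pos (by omega)] at h1 h2
    have e4 : 1 + 2 - 3 = 0 := rfl
    rw [e4, h3] at h1 h2
    simp only [mul_sub, Finset.sum_sub_distrib]
    rw [← h1, ← h2, sub_self]) (pt i + g)
  have e : pt i + (pt i + g) = g := by rw [← add_assoc, gam_add_self, zero_add]
  rw [e, hij, hfp] at key
  have hfg : f g = 1 := by simp [f, hhg.symm]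
  simpa [hfg] using key

theorem z2 (i : Fin 6) (g : Gam) (hg : ∀ i, pt i ≠ g) : coeff 2 (D.z phi i g) = 0 := by
  obtain ⟨a, b, c, hab, hac, hbc, rfl⟩ := out_form g hg
  obtain ⟨d, hda, hdb, hdc⟩ := fourth a b c
  obtain ⟨i', j', hij⟩ := meet (pt i + (pt a + pt b + pt c))
  have hfp := D.hw_pt a b c d hab hac hda.symm hbc hdb.symm hdc.symm
  have key := D.indep hd (fun v => D.hw a b c d (pt i + v) * coeff 2 (D.z phi i (pt i + v))
      - D.hw a b c d (pt i' + v) * coeff 2 (D.z phi i' (pt i' + v))) (fun x => by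
    have h1 := D.star_hom phi x _ (D.hw_fx a b c d) 1 (D.hom1_mem x _ (D.hw_code a b c d))
      (fun i => by simp [hom, hfp]) i 2
    have h2 := D.star_hom phi x _ (D.hw_fx a b c d) 1 (D.hom1_mem x _ (D.hw_code a b c d))
      (fun i => by simp [hom, hfp]) i' 2
    have h3 := (phi (D.mkK _ (D.hom1_mem x _ (D.hw_code a b c d))
      (fun i => by simp [hom, hfp]))).2.1
    rw [coeff_X_pow_mul', if_pos (by omega)] at h1 h2
    have e4 : 2 + 1 - 3 = 0 := rfl
    rw [e4, h3] at h1 h2
    simp only [mul_sub, Finset.sum_sub_distrib]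
    rw [← h1, ← h2, sub_self]) (pt i + (pt a + pt b + pt c))
  have e : pt i + (pt i + (pt a + pt b + pt c)) = pt a + pt b + pt c := by
    rw [← add_assoc, gam_add_self, zero_add]
  rw [e, hij, hfp, D.hw_c a b c d hab hac hda.symm hbc hdb.symm hdc.symm] at key
  have hne : D.c d * (D.c a + D.c b) ^ 2 ≠ 0 :=
    mul_ne_zero (D.c_ne d) (pow_ne_zero 2 (D.c_add_ne a b hab))
  simpa [hne] using key

theorem z3 (a b c d : Fin 6) (hab : a ≠ b) (hac : a ≠ c) (had : a ≠ d) (hbc : b ≠ c)
    (hbd : b ≠ d) (hcd : c ≠ d) :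
    coeff 3 (D.z phi c (pt a + pt b + pt c)) = coeff 3 (D.z phi d (pt a + pt b + pt d)) := by
  have hfp := D.hw_pt a b c d hab hac had hbc hbd hcd
  have key := D.indep hd
    (fun v => ∑ i, D.c i * (D.hw a b c d (pt i + v) * coeff 3 (D.z phi i (pt i + v)))) (fun x => by
    have h1 := D.star_hom phi x _ (D.hw_fx a b c d) 1 (D.hom1_mem x _ (D.hw_code a b c d))
      (fun i => by simp [hom, hfp])
    have h3 := (phi (D.mkK _ (D.hom1_mem x _ (D.hw_code a b c d))
      (fun i => by simp [hom, hfp]))).2.2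
    have h4 : ∀ i, coeff 1 ((phi (D.mkK _ (D.hom1_mem x _ (D.hw_code a b c d))
      (fun i => by simp [hom, hfp]))).1 i) = ∑ v, D.tau v x * (D.hw a b c d (pt i + v) *
        coeff 3 (D.z phi i (pt i + v))) := by
      intro i
      rw [← h1 i 3, coeff_X_pow_mul', if_pos (by omega)]
    simp only [h4, Finset.mul_sum] at h3
    rw [Finset.sum_comm] at h3
    rw [← h3]
    refine Finset.sum_congr rfl fun v _ => ?_
    rw [Finset.mul_sum]
    exact Finset.sum_congr rfl fun i _ => by ring) (pt a + pt b)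
  have e : ∀ i, pt i + (pt a + pt b) = pt a + pt b + pt i := fun i => add_comm _ _
  simp only [e] at key
  have hne := D.c_add_ne a b hab
  have hother : ∀ i, i ≠ c → i ≠ d → D.c i * (D.hw a b c d (pt a + pt b + pt i) *
      coeff 3 (D.z phi i (pt a + pt b + pt i))) = 0 := by
    intro i hic hid
    have h0 : D.hw a b c d (pt a + pt b + pt i) = 0 := by
      by_cases hia : i = a
      · subst hia
        have : pt i + pt b + pt i = pt b := by
          rw [add_comm (pt i + pt b), ← add_assoc, gam_add_self, zero_add]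
        rw [this, hfp]
      · by_cases hib : i = b
        · subst hib
          rw [add_assoc, gam_add_self, add_zero, hfp]
        · exact D.hw_e a b c d i hac had hbc hbd hia hib hic hid
    rw [h0, zero_mul, mul_zero]
  have hsum : ∑ i, D.c i * (D.hw a b c d (pt a + pt b + pt i) *
      coeff 3 (D.z phi i (pt a + pt b + pt i))) =
      D.c c * (D.hw a b c d (pt a + pt b + pt c) *
        coeff 3 (D.z phi c (pt a + pt b + pt c))) +
      D.c d * (D.hw a b c d (pt a + pt b + pt d) *
        coeff 3 (D.z phi d (pt a + pt b + pt d))) := by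
    rw [← Finset.sum_subset (Finset.subset_univ ({c, d} : Finset (Fin 6)))]
    · rw [Finset.sum_pair hcd]
    · intro i _ hi
      simp only [Finset.mem_insert, Finset.mem_singleton, not_or] at hi
      exact hother i hi.1 hi.2
  rw [hsum, D.hw_c a b c d hab hac had hbc hbd hcd, D.hw_d a b c d hab hac had hbc hbd hcd] at key
  have h5 : (D.c c * D.c d * (D.c a + D.c b) ^ 2) *
      (coeff 3 (D.z phi c (pt a + pt b + pt c)) + coeff 3 (D.z phi d (pt a + pt b + pt d))) = 0 := by
    linear_combination key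
  have h6 : D.c c * D.c d * (D.c a + D.c b) ^ 2 ≠ 0 :=
    mul_ne_zero (mul_ne_zero (D.c_ne c) (D.c_ne d)) (pow_ne_zero 2 hne)
  have h7 := (mul_eq_zero.1 h5).resolve_left h6
  have h8 := eq_neg_of_add_eq_zero_left h7
  rw [h8, D.neg_self]

end Datum

end

end Pool.Agent.HWX
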