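import Pool.Agent.HWX.E3

/-! helper11. Every linear map from the kernel of the restriction extends, and
endomorphisms modulo `X ^ 3` lift. -/

set_option autoImplicit false

namespace Pool.Agent.HWX

open scoped Classical
open PowerSeries

noncomputable section

variable {L : Type} [Field L] (D : Datum L)

namespace Datum

/-- the twisted multiplication by an element of the module -/
def psi (v : Gam) (m : D.M) : D.RL →ₗ[D.R] D.M where
  toFun x := ⟨fun i => PowerSeries.map (D.tau v) (x.1 (pt i + v)) * m.1 i, by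
    obtain ⟨h0, h1, h2⟩ := x.2
    obtain ⟨m0, m1⟩ := m.2
    have e0 : ∀ i, coeff 0 (PowerSeries.map (D.tau v) (x.1 (pt i + v)) * m.1 i) =
        D.tau v (coeff 0 (x.1 0)) * coeff 0 (m.1 0) := by
      intro i
      rw [coeff_mul]
      simp only [Finset.Nat.antidiagonal_zero, Finset.sum_singleton, coeff_map, h0 (pt i + v),
        m0 i]
    have e1 : ∀ i, coeff 1 (PowerSeries.map (D.tau v) (x.1 (pt i + v)) * m.1 i) =
        D.tau v (coeff 0 (x.1 0)) * coeff 1 (m.1 i) +
        D.tau v (coeff 1 (x.1 (pt i + v))) * coeff 0 (m.1 0) := by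
      intro i
      rw [coeff_mul, Finset.Nat.sum_antidiagonal_succ]
      simp only [Finset.Nat.antidiagonal_zero, Finset.sum_singleton, coeff_map, zero_add]
      rw [h0 (pt i + v), m0 i]
    rw [D.mem_M]
    refine ⟨fun i => by rw [e0, e0], ?_⟩
    have e2 : ∀ i, D.c i * coeff 1 (PowerSeries.map (D.tau v) (x.1 (pt i + v)) * m.1 i) =
        D.tau v (coeff 0 (x.1 0)) * (D.c i * coeff 1 (m.1 i)) +
        D.tau v (D.c i * coeff 1 (x.1 (pt i + v))) * coeff 0 (m.1 0) := by
      intro i
      rw [e1, map_mul, D.tau_c]; ring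
    simp only [e2, Finset.sum_add_distrib, ← Finset.mul_sum, ← Finset.sum_mul, ← map_sum, m1,
      h1 v, map_zero, mul_zero, zero_mul, add_zero]⟩
  map_add' x y := by
    apply Subtype.ext
    funext i
    have e1 : (x + y).1 (pt i + v) = x.1 (pt i + v) + y.1 (pt i + v) := rfl
    change PowerSeries.map (D.tau v) ((x + y).1 (pt i + v)) * m.1 i =
      PowerSeries.map (D.tau v) (x.1 (pt i + v)) * m.1 i +
      PowerSeries.map (D.tau v) (y.1 (pt i + v)) * m.1 i
    rw [e1, map_add, add_mul]
  map_smul' r x := by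
    apply Subtype.ext
    funext i
    have e1 : (r • x).1 (pt i + v) =
      PowerSeries.map (D.tau (pt i + v)) (r : PowerSeries L) * x.1 (pt i + v) := rfl
    change PowerSeries.map (D.tau v) ((r • x).1 (pt i + v)) * m.1 i =
      PowerSeries.map (D.tau (pt i)) (r : PowerSeries L) *
      (PowerSeries.map (D.tau v) (x.1 (pt i + v)) * m.1 i)
    rw [e1, map_mul, mapmap]
    have : v + (pt i + v) = pt i := by
      rw [add_comm, add_assoc, gam_add_self, add_zero]
    rw [this, mul_assoc]

theorem psi_apply (v : Gam) (m : D.M) (x : D.RL) (i : Fin 6) :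
    (D.psi v m x).1 i = PowerSeries.map (D.tau v) (x.1 (pt i + v)) * m.1 i := rfl

variable (phi : LinearMap.ker D.res →ₗ[D.R] D.M) (hd : St_Dual)

include hd in
theorem exM (v : Gam) : ∃ m : D.M, ∀ i, (∀ j, pt j ≠ pt i + v) →
    X ^ 3 * m.1 i = D.z phi i (pt i + v) := by
  by_cases hv : v = 0
  · subst hv
    refine ⟨0, fun i hi => absurd (by rw [add_zero]) (hi i)⟩
  obtain ⟨a, b, hab, rfl⟩ := pair_form v hv
  have hdvd : ∀ i, i ≠ a → i ≠ b → ∃ y : PowerSeries L,
      D.z phi i (pt a + pt b + pt i) = X ^ 3 * y := by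
    intro i hia hib
    have hout : ∀ j, pt j ≠ pt a + pt b + pt i := fun j => pt_three a b i j hab hia.symm hib.symm
    have : X ^ 3 ∣ D.z phi i (pt a + pt b + pt i) := by
      rw [X_pow_dvd_iff]
      intro n hn
      have h3 : n = 0 ∨ n = 1 ∨ n = 2 := by omega
      rcases h3 with rfl | rfl | rfl
      · exact D.z0 phi hd i _ hout
      · exact D.z1 phi hd i _ hout
      · exact D.z2 phi hd i _ hout
    exact this
  choose! y hy using hdvd
  obtain ⟨c0, hc0a, hc0b, _⟩ := fourth a b b
  have hk : ∀ i, i ≠ a → i ≠ b → coeff 0 (y i) = coeff 0 (y c0) := by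
    intro i hia hib
    by_cases hic : i = c0
    · rw [hic]
    · have h3 := D.z3 phi hd a b i c0 hab hia.symm hc0a.symm hib.symm hc0b.symm hic
      rw [hy i hia hib, hy c0 hc0a hc0b] at h3
      rw [coeff_X_pow_mul', coeff_X_pow_mul', if_pos (by omega), if_pos (by omega)] at h3
      exact h3
  let S1 : L := ∑ i, if i = a ∨ i = b then 0 else D.c i * coeff 1 (y i)
  let k : L := coeff 0 (y c0)
  let m : Fin 6 → PowerSeries L := fun i =>
    if i = a then C k + C ((D.c a)⁻¹ * S1) * X else if i = b then C k else y i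
  have hm0 : ∀ i, coeff 0 (m i) = k := by
    intro i
    simp only [m]
    split_ifs with h1 h2
    · simp
    · simp
    · exact hk i h1 h2
  have hm1 : ∀ i, D.c i * coeff 1 (m i) = (if i = a then S1 else 0) +
      (if i = a ∨ i = b then 0 else D.c i * coeff 1 (y i)) := by
    intro i
    simp only [m]
    by_cases h1 : i = a
    · have hca := D.c_ne a
      subst h1
      simp [coeff_C, coeff_one_X]
      field_simp
    · by_cases h2 : i = b
      · subst h2
        simp [Ne.symm hab, coeff_C]
      · simp [h1, h2]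
  refine ⟨⟨m, fun i => by rw [hm0, hm0], ?_⟩, ?_⟩
  · simp only [hm1, Finset.sum_add_distrib, Finset.sum_ite_eq', Finset.mem_univ, if_true]
    exact D.add_self S1
  · intro i hi
    have hia : i ≠ a := by
      rintro rfl
      exact hi b (by rw [← add_assoc, gam_add_self, zero_add])
    have hib : i ≠ b := by
      rintro rfl
      exact hi a (by rw [add_comm (pt a), ← add_assoc, gam_add_self, zero_add])
    have e : pt i + (pt a + pt b) = pt a + pt b + pt i := add_comm _ _
    have e2 : m i = y i := by simp only [m, if_neg hia, if_neg hib]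
    change X ^ 3 * m i = _
    rw [e2, e, hy i hia hib]

include hd in
/-- every linear map from the kernel of the restriction extends -/
theorem extend : ∃ Phi : D.RL →ₗ[D.R] D.M, ∀ x : LinearMap.ker D.res, Phi x.1 = phi x := by
  choose m hm using D.exM phi hd
  refine ⟨∑ v, D.psi v (m v), fun x => ?_⟩
  apply Subtype.ext
  funext i
  have hX : (X ^ 3 : PowerSeries L) ≠ 0 := pow_ne_zero 3 X_ne_zero
  apply mul_left_cancel₀ hX
  rw [D.star phi x i, LinearMap.sum_apply, coe_sumM, Finset.mul_sum]
  refine Fintype.sum_equiv (Equiv.addLeft (pt i)) _ _ fun v => ?_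
  rw [Equiv.coe_addLeft, psi_apply, ← add_assoc, gam_add_self, zero_add]
  by_cases h : ∀ j, pt j ≠ pt i + v
  · rw [← hm v i h]; ring
  · simp only [not_forall, not_not] at h
    obtain ⟨j, hj⟩ := h
    have hk : x.1.1 (pt i + v) = 0 := by rw [← hj]; exact D.ker_pt x j
    simp only [hk, map_zero, zero_mul, mul_zero]

theorem x3_inj (w : D.M) (h : (x3 D) • w = 0) : w = 0 := by
  apply Subtype.ext
  funext i
  have h1 : ((x3 D) • w).1 i = 0 := by rw [h]; rfl
  have h2 : ((x3 D) • w).1 i = X ^ 3 * w.1 i := D.x3_smul pt w.1 i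
  rw [h2] at h1
  exact (mul_eq_zero.1 h1).resolve_left (pow_ne_zero 3 X_ne_zero)

include hd in
/-- endomorphisms modulo `X ^ 3` lift -/
theorem lift : HWC.Lift D.R D.M (x3 D) := by
  intro N _ _ pi hpi hker phi
  obtain ⟨al, be, hx⟩ := D.expand hd
  choose n hn using fun j => hpi (phi (D.res (D.cst (al j))))
  let lam : D.RL →ₗ[D.R] D.M := ∑ j, (D.crd (be j)).smulRight (n j)
  have hlam : ∀ x, pi (lam x) = phi (D.res x) := by
    intro x
    have e : lam x = ∑ j, D.crd (be j) x • n j := by
      simp only [lam, LinearMap.sum_apply, LinearMap.smulRight_apply]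
    rw [e, map_sum]
    conv_rhs => rw [hx x]
    rw [map_sum, map_sum]
    refine Finset.sum_congr rfl fun j _ => ?_
    rw [map_smul, map_smul, map_smul, hn]
  have h1 : ∀ k : LinearMap.ker D.res, ∃ w : D.M, lam k.1 = (x3 D) • w := by
    intro k
    rw [← hker, hlam, LinearMap.mem_ker.1 k.2, map_zero]
  choose w hw using h1
  have huniq : ∀ u v : D.M, (x3 D) • u = (x3 D) • v → u = v := by
    intro u v huv
    have := D.x3_inj (u - v) (by rw [smul_sub, huv, sub_self])
    exact sub_eq_zero.1 this
  let ph : LinearMap.ker D.res →ₗ[D.R] D.M :=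
    { toFun := w
      map_add' := fun a b => by
        apply huniq
        rw [smul_add, ← hw, ← hw, ← hw, Submodule.coe_add, map_add]
      map_smul' := fun r a => by
        apply huniq
        rw [RingHom.id_apply, smul_comm, ← hw, ← hw, Submodule.coe_smul, map_smul] }
  obtain ⟨Phi, hPhi⟩ := D.extend ph hd
  have hvan : ∀ x : D.RL, D.res x = 0 → lam x = (x3 D) • Phi x := by
    intro x hx
    have := hPhi ⟨x, LinearMap.mem_ker.2 hx⟩
    rw [this]
    exact hw ⟨x, LinearMap.mem_ker.2 hx⟩
  choose s hs using D.res_surj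
  have hwd : ∀ x y : D.RL, D.res x = D.res y →
      lam x - (x3 D) • Phi x = lam y - (x3 D) • Phi y := by
    intro x y hxy
    have := hvan (x - y) (by rw [map_sub, hxy, sub_self])
    rw [map_sub, map_sub, smul_sub] at this
    rw [sub_eq_sub_iff_add_eq_add]
    have h2 := sub_eq_sub_iff_add_eq_add.1 this
    rw [add_comm (lam x)] at h2 ⊢
    rw [h2, add_comm]
  refine ⟨⟨⟨fun m => lam (s m) - (x3 D) • Phi (s m), ?_⟩, ?_⟩, ?_⟩
  · intro a b
    rw [hwd (s (a + b)) (s a + s b) (by rw [hs, map_add, hs, hs]), map_add, map_add, smul_add]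
    abel
  · intro r a
    change lam (s (r • a)) - (x3 D) • Phi (s (r • a)) = r • (lam (s a) - (x3 D) • Phi (s a))
    rw [hwd (s (r • a)) (r • s a) (by rw [hs, map_smul, hs]), map_smul, map_smul, smul_sub,
      smul_comm]
  · intro m
    change pi (lam (s m) - (x3 D) • Phi (s m)) = phi m
    rw [map_sub, hlam, hs, (hker _).2 ⟨_, rfl⟩, sub_zero]

end Datum

end

end Pool.Agent.HWX
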