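import Pool.Agent.HWX.St

/-!
helper20. Module Ex of HWX: the field with a datum exists.
-/

set_option autoImplicit false

namespace Pool.Agent.HWX

open MvPolynomial

private abbrev P5 : Type := MvPolynomial (Fin 5) (ZMod 2)

private noncomputable abbrev L5 : Type := FractionRing P5

private def tr (g : Gam) : Fin 5 → ZMod 2 := Fin.snoc (α := fun _ => ZMod 2) g 0

private theorem tr_cs (g : Gam) (i : Fin 4) : tr g i.castSucc = g i := by
  simp [tr]

private theorem tr_last (g : Gam) : tr g 4 = 0 := by
  have : (4 : Fin 5) = Fin.last 4 := rfl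
  rw [this, tr, Fin.snoc_last]

private theorem tr_zero (j : Fin 5) : tr 0 j = 0 := by
  refine Fin.lastCases ?_ (fun i => ?_) j
  · exact tr_last 0
  · rw [tr_cs]; rfl

private theorem tr_add (g h : Gam) (j : Fin 5) : tr (g + h) j = tr g j + tr h j := by
  refine Fin.lastCases ?_ (fun i => ?_) j
  · have e : ∀ k : Gam, tr k (Fin.last 4) = 0 := tr_last
    rw [e, e, e, add_zero]
  · rw [tr_cs, tr_cs, tr_cs]; rfl

private noncomputable def phi (g : Gam) : P5 →ₐ[ZMod 2] P5 :=
  aeval (fun j => X j + C (tr g j))

private theorem phi_X (g : Gam) (j : Fin 5) : phi g (X j) = X j + C (tr g j) := by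
  simp [phi]

private theorem phi_zero : phi 0 = AlgHom.id (ZMod 2) P5 := by
  refine MvPolynomial.algHom_ext (fun j => ?_)
  rw [phi_X, tr_zero, C_0, add_zero]; rfl

private theorem phi_add (g h : Gam) : phi (g + h) = (phi g).comp (phi h) := by
  refine MvPolynomial.algHom_ext (fun j => ?_)
  rw [phi_X, AlgHom.comp_apply, phi_X, map_add, phi_X, tr_add, C_add]
  have : phi g (C (tr h j)) = C (tr h j) := by
    simp
  rw [this, add_assoc]

private theorem gself (g : Gam) : g + g = 0 := by
  funext i
  have : ∀ x : ZMod 2, x + x = 0 := by decide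
  exact this (g i)

private theorem phi_phi (g : Gam) (p : P5) : phi g (phi g p) = p := by
  have := phi_add g g
  rw [gself, phi_zero] at this
  have h2 := congrArg (fun f => f p) this
  exact h2.symm

private theorem phi_inj (g : Gam) : Function.Injective (phi g : P5 →+* P5) := by
  intro a b h
  have h' : phi g a = phi g b := h
  rw [← phi_phi g a, h', phi_phi]

private noncomputable def tau5 (g : Gam) : L5 →+* L5 :=
  IsFractionRing.map (A := P5) (B := P5) (K := L5) (L := L5) (phi_inj g)

private theorem tau5_am (g : Gam) (p : P5) :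
    tau5 g (algebraMap P5 L5 p) = algebraMap P5 L5 (phi g p) := by
  unfold tau5 IsFractionRing.map
  rw [IsLocalization.map_eq]
  rfl

private theorem tau5_zero (a : L5) : tau5 0 a = a := by
  have : tau5 0 = RingHom.id L5 := by
    refine IsLocalization.ringHom_ext (nonZeroDivisors P5) ?_
    refine RingHom.ext (fun p => ?_)
    rw [RingHom.comp_apply, tau5_am, phi_zero]; rfl
  rw [this]; rfl

private theorem tau5_add (g h : Gam) (a : L5) : tau5 (g + h) a = tau5 g (tau5 h a) := by
  have : tau5 (g + h) = (tau5 g).comp (tau5 h) := by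
    refine IsLocalization.ringHom_ext (nonZeroDivisors P5) ?_
    refine RingHom.ext (fun p => ?_)
    rw [RingHom.comp_apply, RingHom.comp_apply, RingHom.comp_apply, tau5_am, tau5_am,
      tau5_am, phi_add]; rfl
  rw [this]; rfl

private noncomputable def lam5 (i : Fin 4) : L5 := algebraMap P5 L5 (X i.castSucc)

private theorem tau5_lam (g : Gam) (i : Fin 4) :
    tau5 g (lam5 i) = if g i = 0 then lam5 i else lam5 i + 1 := by
  unfold lam5
  rw [tau5_am, phi_X, tr_cs]
  split_ifs with h
  · rw [h, C_0, add_zero]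
  · have h1 : g i = 1 := by
      have : ∀ x : ZMod 2, x ≠ 0 → x = 1 := by decide
      exact this _ h
    rw [h1, C_1, map_add, map_one]

private noncomputable def cp : Fin 6 → Polynomial (ZMod 2) :=
  ![1, Polynomial.X, Polynomial.X ^ 2, Polynomial.X ^ 3, Polynomial.X ^ 4,
    1 + Polynomial.X + Polynomial.X ^ 2 + Polynomial.X ^ 3 + Polynomial.X ^ 4]

private noncomputable def cP : Fin 6 → P5 :=
  ![1, X 4, X 4 ^ 2, X 4 ^ 3, X 4 ^ 4, 1 + X 4 + X 4 ^ 2 + X 4 ^ 3 + X 4 ^ 4]

private theorem phi_c (g : Gam) (i : Fin 6) : phi g (cP i) = cP i := by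
  have h4 : phi g (X 4) = X 4 := by rw [phi_X, tr_last, C_0, add_zero]
  fin_cases i <;> simp [cP, h4]

private noncomputable def sp : P5 →ₐ[ZMod 2] Polynomial (ZMod 2) :=
  aeval (fun _ => Polynomial.X)

private theorem sp_c (i : Fin 6) : sp (cP i) = cp i := by
  fin_cases i <;> simp [cP, cp, sp]

/-- the vector of the first five coefficients -/
private def vc : Fin 6 → Fin 5 → ZMod 2 :=
  ![![1, 0, 0, 0, 0], ![0, 1, 0, 0, 0], ![0, 0, 1, 0, 0], ![0, 0, 0, 1, 0],
    ![0, 0, 0, 0, 1], ![1, 1, 1, 1, 1]]

private theorem coeff_cp (i : Fin 6) (j : Fin 5) : (cp i).coeff j.val = vc i j := by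
  fin_cases i <;> fin_cases j <;>
    simp [cp, vc, Polynomial.coeff_X, Polynomial.coeff_one, Polynomial.coeff_X_pow]

private theorem cP_inj : Function.Injective cP := by
  intro a b h
  have h1 : cp a = cp b := by rw [← sp_c, ← sp_c, h]
  have h2 : vc a = vc b := by
    funext j
    rw [← coeff_cp, ← coeff_cp, h1]
  revert a b
  have : ∀ a b : Fin 6, vc a = vc b → a = b := by decide
  intro a b _ _ h
  exact this a b h

private theorem cP_ne (a : Fin 6) : cP a ≠ 0 := by
  intro h
  have h1 : cp a = 0 := by rw [← sp_c, h, map_zero]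
  have h2 : vc a = 0 := by
    funext j
    rw [← coeff_cp, h1, Polynomial.coeff_zero]; rfl
  revert a
  have : ∀ a : Fin 6, vc a = 0 → False := by decide
  intro a _ _ h
  exact this a h

private theorem two5 : (2 : P5) = 0 := by
  have h : (C (2 : ZMod 2) : P5) = 2 := map_ofNat C 2
  rw [← h, show (2 : ZMod 2) = 0 from rfl, C_0]

private theorem cP_sum : ∑ i, cP i = 0 := by
  have h : ∑ i, cP i = 2 * (1 + X 4 + X 4 ^ 2 + X 4 ^ 3 + X 4 ^ 4) := by
    simp only [Fin.sum_univ_six, cP, Matrix.cons_val]
    ring
  rw [h, two5, zero_mul]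

theorem thm_Ex : St_Ex := by
  refine ⟨L5, inferInstance, ⟨?_⟩⟩
  have hinj : Function.Injective (algebraMap P5 L5) := IsFractionRing.injective P5 L5
  exact
    { tau := tau5
      tau_zero := tau5_zero
      tau_add := tau5_add
      lam := lam5
      tau_lam := fun g i => tau5_lam g i
      c := fun i => algebraMap P5 L5 (cP i)
      tau_c := fun g i => by rw [tau5_am, phi_c]
      c_ne := fun i h => cP_ne i (hinj (by rw [h, map_zero]))
      c_inj := fun a b h => cP_inj (hinj h)
      c_sum := by rw [← map_sum, cP_sum, map_zero]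
      two := by
        have h := congrArg (algebraMap P5 L5) two5
        rw [map_zero] at h
        rw [← h, map_ofNat] }

end Pool.Agent.HWX
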