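import Pool.Agent.HWX.Defs

/-! helper11. Field facts for the Huneke-Wiegand counterexample. -/

set_option autoImplicit false

namespace Pool.Agent.HWX

open scoped Classical

theorem gam_add_self (g : Gam) : g + g = 0 := by
  funext i
  have : ∀ x : ZMod 2, x + x = 0 := by decide
  exact this (g i)

/-- a symmetric double sum in characteristic two is its diagonal -/
theorem sum_symm {ι R : Type} [Fintype ι] [CommRing R] (h2 : (2 : R) = 0)
    (F : ι → ι → R) (hF : ∀ i j, F i j = F j i) :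
    ∑ i, ∑ j, F i j = ∑ i, F i i := by
  have e : ∑ i, ∑ j, F i j = ∑ p : ι × ι, F p.1 p.2 := by
    rw [← Finset.univ_product_univ, Finset.sum_product]
  have e2 : ∑ p : ι × ι, F p.1 p.2
      = ∑ p : ι × ι with p.1 = p.2, F p.1 p.2 + ∑ p : ι × ι with ¬ p.1 = p.2, F p.1 p.2 :=
    (Finset.sum_filter_add_sum_filter_not _ _ _).symm
  have e3 : ∑ p : ι × ι with ¬ p.1 = p.2, F p.1 p.2 = 0 := by
    refine Finset.sum_involution (fun p _ => (p.2, p.1)) ?_ ?_ ?_ ?_
    · intro p _
      have : F p.1 p.2 + F p.2 p.1 = 2 * F p.1 p.2 := by rw [hF p.2 p.1]; ring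
      simpa [h2] using this
    · intro p hp _ h
      simp only [Finset.mem_filter, Finset.mem_univ, true_and] at hp
      exact hp (by have := congrArg Prod.fst h; simpa using this.symm)
    · intro p hp
      simp only [Finset.mem_filter, Finset.mem_univ, true_and] at hp ⊢
      exact fun h => hp h.symm
    · intro p _
      rfl
  have e4 : ∑ p : ι × ι with p.1 = p.2, F p.1 p.2 = ∑ i, F i i := by
    symm
    refine Finset.sum_bij (fun i _ => (i, i)) ?_ ?_ ?_ ?_
    · intro i _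
      simp
    · intro i _ j _ h
      exact congrArg Prod.fst h
    · intro p hp
      simp only [Finset.mem_filter, Finset.mem_univ, true_and] at hp
      exact ⟨p.1, Finset.mem_univ _, by ext <;> simp [hp]⟩
    · intro i _
      rfl
  rw [e, e2, e3, e4, add_zero]

variable {L : Type} [Field L]

namespace Datum

variable (D : Datum L)

theorem tau_tau (g : Gam) (a : L) : D.tau g (D.tau g a) = a := by
  rw [← D.tau_add, gam_add_self, D.tau_zero]

theorem tau_comm (g h : Gam) (a : L) : D.tau g (D.tau h a) = D.tau h (D.tau g a) := by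
  rw [← D.tau_add, ← D.tau_add, add_comm]

include D in
theorem add_self (a : L) : a + a = 0 := by
  have : a + a = 2 * a := by ring
  rw [this, D.two, zero_mul]

include D in
theorem neg_self (a : L) : -a = a := by
  have := D.add_self a
  exact neg_eq_of_add_eq_zero_left this

theorem Fx_zero : D.Fx 0 := fun g => map_zero _
theorem Fx_one : D.Fx 1 := fun g => map_one _
theorem Fx_add {a b : L} (ha : D.Fx a) (hb : D.Fx b) : D.Fx (a + b) := fun g => by
  rw [map_add, ha g, hb g]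
theorem Fx_neg {a : L} (ha : D.Fx a) : D.Fx (-a) := fun g => by
  rw [map_neg, ha g]
theorem Fx_mul {a b : L} (ha : D.Fx a) (hb : D.Fx b) : D.Fx (a * b) := fun g => by
  rw [map_mul, ha g, hb g]
theorem Fx_inv {a : L} (ha : D.Fx a) : D.Fx a⁻¹ := fun g => by
  rw [map_inv₀, ha g]
theorem Fx_c (i : Fin 6) : D.Fx (D.c i) := fun g => D.tau_c g i

theorem Fx_sum {ι : Type} (s : Finset ι) (f : ι → L) (h : ∀ i ∈ s, D.Fx (f i)) :
    D.Fx (∑ i ∈ s, f i) := fun g => by
  rw [map_sum]
  exact Finset.sum_congr rfl fun i hi => h i hi g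

theorem A_zero : D.A 0 = 0 := by simp [Datum.A]
theorem A_add (a b : L) : D.A (a + b) = D.A a + D.A b := by
  simp [Datum.A, mul_add, Finset.sum_add_distrib]
theorem A_neg (a : L) : D.A (-a) = -D.A a := by
  simp [Datum.A]
theorem A_mul_fx {k : L} (hk : D.Fx k) (a : L) : D.A (k * a) = k * D.A a := by
  simp only [Datum.A, map_mul, Finset.mul_sum]
  refine Finset.sum_congr rfl fun i _ => ?_
  rw [hk]; ring
theorem A_tau (g : Gam) (a : L) : D.A (D.tau g a) = D.tau g (D.A a) := by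
  simp only [Datum.A, map_sum, map_mul]
  refine Finset.sum_congr rfl fun i _ => ?_
  rw [D.tau_c, D.tau_comm]

theorem Tr_zero : D.Tr 0 = 0 := by simp [Datum.Tr]
theorem Tr_add (a b : L) : D.Tr (a + b) = D.Tr a + D.Tr b := by
  simp [Datum.Tr, Finset.sum_add_distrib]
theorem Tr_neg (a : L) : D.Tr (-a) = -D.Tr a := by
  simp [Datum.Tr]
theorem Tr_mul_fx {k : L} (hk : D.Fx k) (a : L) : D.Tr (k * a) = k * D.Tr a := by
  simp only [Datum.Tr, map_mul, Finset.mul_sum]
  refine Finset.sum_congr rfl fun i _ => ?_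
  rw [hk]
theorem Tr_tau (g : Gam) (a : L) : D.Tr (D.tau g a) = D.Tr a := by
  simp only [Datum.Tr]
  refine Fintype.sum_equiv (Equiv.addRight g) _ _ fun h => ?_
  rw [Equiv.coe_addRight, D.tau_add]
theorem Fx_Tr (a : L) : D.Fx (D.Tr a) := fun g => by
  simp only [Datum.Tr, map_sum]
  refine Fintype.sum_equiv (Equiv.addLeft g) _ _ fun h => ?_
  rw [Equiv.coe_addLeft, D.tau_add]
theorem Tr_sum {ι : Type} (s : Finset ι) (f : ι → L) :
    D.Tr (∑ i ∈ s, f i) = ∑ i ∈ s, D.Tr (f i) := by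
  simp only [Datum.Tr, map_sum]
  rw [Finset.sum_comm]

theorem A_A (a : L) : D.A (D.A a) = 0 := by
  have e : D.A (D.A a) = ∑ i, ∑ j, D.c i * D.c j * D.tau (pt i + pt j) a := by
    simp only [Datum.A, map_sum, map_mul, Finset.mul_sum]
    refine Finset.sum_congr rfl fun i _ => Finset.sum_congr rfl fun j _ => ?_
    rw [D.tau_c, D.tau_add]; ring
  rw [e, sum_symm D.two _ fun i j => by rw [add_comm (pt i)]; ring]
  have : ∀ i, D.c i * D.c i * D.tau (pt i + pt i) a = D.c i * D.c i * a := fun i => by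
    rw [gam_add_self, D.tau_zero]
  simp only [this, ← Finset.sum_mul]
  have h : ∑ i, D.c i * D.c i = (∑ i, D.c i) * ∑ i, D.c i := by
    rw [Finset.sum_mul_sum]
    rw [sum_symm D.two _ fun i j => mul_comm _ _]
  rw [h, D.c_sum]; ring

theorem adj (a b : L) : D.Tr (D.A a * b) = D.Tr (a * D.A b) := by
  have e1 : D.A a * b = ∑ i, D.c i * (D.tau (pt i) a * b) := by
    simp only [Datum.A, Finset.sum_mul]
    exact Finset.sum_congr rfl fun i _ => by ring
  have e2 : a * D.A b = ∑ i, D.c i * (a * D.tau (pt i) b) := by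
    simp only [Datum.A, Finset.mul_sum]
    exact Finset.sum_congr rfl fun i _ => by ring
  rw [e1, e2, D.Tr_sum, D.Tr_sum]
  refine Finset.sum_congr rfl fun i _ => ?_
  rw [D.Tr_mul_fx (D.Fx_c i), D.Tr_mul_fx (D.Fx_c i)]
  congr 1
  rw [← D.Tr_tau (pt i) (a * D.tau (pt i) b), map_mul, D.tau_tau]

/-- the operator appearing as a commutator with `lam 0` -/
def B (a : L) : L := D.c 1 * D.tau (pt 1) a + D.c 5 * D.tau (pt 5) a

theorem A_lam (a : L) : D.A (D.lam 0 * a) = D.lam 0 * D.A a + D.B a := by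
  have h : ∀ i : Fin 6, D.tau (pt i) (D.lam 0) =
      if i = 1 ∨ i = 5 then D.lam 0 + 1 else D.lam 0 := by
    intro i
    rw [D.tau_lam]
    fin_cases i <;> simp [pt]
  simp only [Datum.A, map_mul, h, Datum.B, Fin.sum_univ_six]
  simp
  ring

theorem B_B (a : L) : D.B (D.B a) = (D.c 1 + D.c 5) ^ 2 * a := by
  simp only [Datum.B, map_add, map_mul, D.tau_c, D.tau_tau]
  rw [D.tau_comm (pt 5) (pt 1)]
  have := D.add_self (D.c 1 * D.c 5 * D.tau (pt 1) (D.tau (pt 5) a))
  have h2 := D.add_self (D.c 1 * D.c 5 * a)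
  linear_combination this - h2

theorem B_mul_fx {k : L} (hk : D.Fx k) (a : L) : D.B (k * a) = k * D.B a := by
  simp only [Datum.B, map_mul, hk _]; ring

theorem A_B (a : L) : D.A (D.B a) = D.B (D.A a) := by
  simp only [Datum.B]
  rw [D.A_add, D.A_mul_fx (D.Fx_c 1), D.A_mul_fx (D.Fx_c 5), D.A_tau, D.A_tau]

theorem c15 : D.c 1 + D.c 5 ≠ 0 := by
  intro h
  have : D.c 1 = D.c 5 := by
    have := eq_neg_of_add_eq_zero_left h
    rw [this, D.neg_self]
  exact absurd (D.c_inj this) (by decide)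

theorem ker_im (a : L) (ha : D.A a = 0) : ∃ b, D.A b = a := by
  have h := D.c15
  have hf : D.Fx ((D.c 1 + D.c 5) ^ 2)⁻¹ :=
    D.Fx_inv (by
      rw [pow_two]
      exact D.Fx_mul (D.Fx_add (D.Fx_c 1) (D.Fx_c 5)) (D.Fx_add (D.Fx_c 1) (D.Fx_c 5)))
  refine ⟨D.lam 0 * (((D.c 1 + D.c 5) ^ 2)⁻¹ * D.B a), ?_⟩
  rw [D.A_lam, D.A_mul_fx hf, D.A_B, ha, D.B_mul_fx hf, D.B_B]
  have : D.B 0 = 0 := by simp [Datum.B]
  rw [this]
  field_simp
  ring

theorem VV {a b : L} (ha : D.A a = 0) (hb : D.A b = 0) : D.Tr (a * b) = 0 := by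
  obtain ⟨a', rfl⟩ := D.ker_im a ha
  rw [D.adj, hb, mul_zero, D.Tr_zero]

theorem A_lam_ne : D.A (D.lam 0) ≠ 0 := by
  have := D.A_lam 1
  have h1 : D.A 1 = 0 := by simp [Datum.A, D.c_sum]
  rw [mul_one, h1] at this
  rw [this]
  simpa [Datum.B] using D.c15

theorem A_one : D.A 1 = 0 := by simp [Datum.A, D.c_sum]

end Datum

end Pool.Agent.HWX
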