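import Pool.Agent.HWX.St2

/-!
helper77. The ideal generated by `X ^ 3` is irreducible.
-/

set_option autoImplicit false

namespace Pool.Agent.HWX

open scoped Classical
open PowerSeries

variable {L : Type} [Field L]

private lemma Gor_mem3 (D : Datum L) (f : PowerSeries L) (h : ∀ m < 3, coeff m f = 0) :
    f ∈ D.R := by
  rw [D.mem_R, h 0 (by norm_num), h 1 (by norm_num), h 2 (by norm_num)]
  exact ⟨D.Fx_zero, D.A_zero, D.Tr_zero⟩

private lemma Gor_memC (D : Datum L) (k : L) (hk : D.Fx k) : (C k : PowerSeries L) ∈ D.R := by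
  rw [D.mem_R, coeff_C, coeff_C, coeff_C, if_pos rfl, if_neg (by norm_num), if_neg (by norm_num)]
  exact ⟨hk, D.A_zero, D.Tr_zero⟩

private lemma Gor_cf (b : L) (m n d : ℕ) (hd : m + n = d) (a : PowerSeries L) :
    coeff d (C b * X ^ m * a) = b * coeff n a := by
  have e : d - m = n := by omega
  rw [mul_assoc, coeff_C_mul, coeff_X_pow_mul', if_pos (by omega), e]

private lemma Gor_cf0 (b : L) (m d : ℕ) (hd : d < m) :
    coeff d (C b * X ^ m : PowerSeries L) = 0 := by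
  rw [coeff_C_mul, coeff_X_pow, if_neg (by omega), mul_zero]

private lemma Gor_cf1 (b : L) (m : ℕ) :
    coeff m (C b * X ^ m : PowerSeries L) = b := by
  rw [coeff_C_mul, coeff_X_pow, if_pos rfl, mul_one]

private lemma Gor_x3 (D : Datum L) : ((x3 D : D.R) : PowerSeries L) = X ^ 3 := rfl

/-- divisibility by `x3 D` -/
private lemma Gor_dvd (D : Datum L) (a : D.R) (h0 : ∀ m < 3, coeff m (a : PowerSeries L) = 0)
    (h3 : D.Fx (coeff 3 (a : PowerSeries L))) (h4 : D.A (coeff 4 (a : PowerSeries L)) = 0)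
    (h5 : D.Tr (coeff 5 (a : PowerSeries L)) = 0) : x3 D ∣ a := by
  obtain ⟨q, hq⟩ := X_pow_dvd_iff.2 h0
  have e : ∀ n, coeff (n + 3) (a : PowerSeries L) = coeff n q := by
    intro n
    rw [hq, coeff_X_pow_mul]
  have hqR : q ∈ D.R := by
    rw [D.mem_R, ← e 0, ← e 1, ← e 2]
    exact ⟨h3, h4, h5⟩
  refine ⟨⟨q, hqR⟩, ?_⟩
  apply Subtype.ext
  exact hq

private lemma Gor_dual (hP : St_Perp) (hDl : St_Dual) (D : Datum L) (a : D.R)
    (h : ∀ r : D.R, D.Tr (coeff 5 ((r * a : D.R) : PowerSeries L)) = 0) : x3 D ∣ a := by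
  obtain ⟨p0, p1, p2, _, _⟩ := hP hDl D
  have key : ∀ (b : L) (m n : ℕ), m + n = 5 → (C b * X ^ m : PowerSeries L) ∈ D.R →
      D.Tr (coeff n (a : PowerSeries L) * b) = 0 := by
    intro b m n hmn hm
    have h1 := h ⟨C b * X ^ m, hm⟩
    have h2 : ((⟨C b * X ^ m, hm⟩ * a : D.R) : PowerSeries L) = C b * X ^ m * (a : PowerSeries L) := rfl
    rw [h2, Gor_cf b m n 5 hmn] at h1
    rw [mul_comm]
    exact h1
  refine Gor_dvd D a ?_ ?_ ?_ ?_
  · intro n hn
    refine p0 _ fun b => key b (5 - n) n (by omega) (Gor_mem3 D _ fun m hm => ?_)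
    exact Gor_cf0 b _ _ (by omega)
  · refine p2 _ fun b hb => key b 2 3 (by norm_num) ?_
    rw [D.mem_R, Gor_cf0 b 2 0 (by norm_num), Gor_cf0 b 2 1 (by norm_num), Gor_cf1]
    exact ⟨D.Fx_zero, D.A_zero, hb⟩
  · refine p1 _ fun b hb => key b 1 4 (by norm_num) ?_
    rw [D.mem_R, Gor_cf0 b 1 0 (by norm_num), Gor_cf1, coeff_C_mul, coeff_X_pow,
      if_neg (by norm_num), mul_zero]
    exact ⟨D.Fx_zero, hb, D.Tr_zero⟩
  · have h1 := h 1
    rw [one_mul] at h1
    exact h1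

/-- the socle element -/
private noncomputable def Gor_w (D : Datum L) (e : L) : D.R :=
  ⟨C e * X ^ 5, Gor_mem3 D _ fun m hm => Gor_cf0 e 5 m (by omega)⟩

private lemma Gor_w_ndvd (D : Datum L) (e : L) (he : D.Tr e = 1) : ¬ x3 D ∣ Gor_w D e := by
  rintro ⟨q, hq⟩
  have h1 : (C e * X ^ 5 : PowerSeries L) = X ^ 3 * (q : PowerSeries L) := congrArg Subtype.val hq
  have h2 := congrArg (coeff 5) h1
  rw [Gor_cf1, show (5 : ℕ) = 2 + 3 from rfl, coeff_X_pow_mul] at h2
  have h3 := q.2.2.2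
  rw [← h2, he] at h3
  exact one_ne_zero h3

private lemma Gor_main (hP : St_Perp) (hDl : St_Dual) (D : Datum L) (e : L) (he : D.Tr e = 1)
    (J : Ideal D.R) (hJ : Ideal.span {x3 D} ≤ J) (a : D.R) (haJ : a ∈ J)
    (ha : ¬ x3 D ∣ a) (hr : ∀ r : D.R, coeff 0 (r : PowerSeries L) = 0 → x3 D ∣ r * a) :
    Gor_w D e ∈ J := by
  set k := D.Tr (coeff 5 (a : PowerSeries L)) with hk
  have hkF : D.Fx k := D.Fx_Tr _
  let Ck : D.R := ⟨C k, Gor_memC D k hkF⟩
  -- the traces
  have hr' : ∀ r : D.R, coeff 0 (r : PowerSeries L) = 0 →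
      D.Tr (coeff 5 ((r * a : D.R) : PowerSeries L)) = 0 := by
    intro r hr0
    obtain ⟨q, hq⟩ := hr r hr0
    rw [hq]
    have h1 : ((x3 D * q : D.R) : PowerSeries L) = X ^ 3 * (q : PowerSeries L) := rfl
    rw [h1, show (5 : ℕ) = 2 + 3 from rfl, coeff_X_pow_mul]
    exact q.2.2.2
  have hb : x3 D ∣ a - Ck * Gor_w D e := by
    refine Gor_dual hP hDl D _ fun r => ?_
    have hr0 : D.Fx (coeff 0 (r : PowerSeries L)) := r.2.1
    set r0 := coeff 0 (r : PowerSeries L) with hr0d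
    let Cr : D.R := ⟨C r0, Gor_memC D r0 hr0⟩
    have e1 : r * (a - Ck * Gor_w D e) = Cr * a + (r - Cr) * a - r * (Ck * Gor_w D e) := by
      ring
    have e2 : ((Cr * a + (r - Cr) * a - r * (Ck * Gor_w D e) : D.R) : PowerSeries L) =
        C r0 * (a : PowerSeries L) + (((r - Cr) * a : D.R) : PowerSeries L) -
          C (k * e) * X ^ 5 * (r : PowerSeries L) := by
      have e3 : ((r * (Ck * Gor_w D e) : D.R) : PowerSeries L) =
          C (k * e) * X ^ 5 * (r : PowerSeries L) := by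
        show (r : PowerSeries L) * (C k * (C e * X ^ 5)) = _
        rw [map_mul]
        ring
      rw [← e3]
      rfl
    rw [e1, e2, map_sub, map_add, coeff_C_mul, Gor_cf (k * e) 5 0 5 (by norm_num), ← hr0d,
      sub_eq_add_neg, D.Tr_add, D.Tr_add, D.Tr_neg, D.Tr_mul_fx hr0, ← hk, hr' (r - Cr) (by
        show coeff 0 ((r : PowerSeries L) - C r0) = 0
        rw [map_sub, coeff_C, if_pos rfl, ← hr0d, sub_self])]
    have e4 : k * e * r0 = (k * r0) * e := by ring
    rw [e4, D.Tr_mul_fx (D.Fx_mul hkF hr0), he]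
    ring
  have hbJ : a - Ck * Gor_w D e ∈ J := hJ (Ideal.mem_span_singleton.2 hb)
  have hCw : Ck * Gor_w D e ∈ J := by
    have h1 := J.sub_mem haJ hbJ
    rwa [sub_sub_cancel] at h1
  have hk0 : k ≠ 0 := by
    intro h0
    apply ha
    have h1 : Ck = 0 := by
      apply Subtype.ext
      show (C k : PowerSeries L) = 0
      rw [h0, map_zero]
    rw [h1, zero_mul, sub_zero] at hb
    exact hb
  let Ci : D.R := ⟨C k⁻¹, Gor_memC D _ (D.Fx_inv hkF)⟩
  have h2 : Ci * (Ck * Gor_w D e) = Gor_w D e := by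
    apply Subtype.ext
    show (C k⁻¹ : PowerSeries L) * (C k * (C e * X ^ 5)) = C e * X ^ 5
    rw [← mul_assoc, ← map_mul, inv_mul_cancel₀ hk0, map_one, one_mul]
  rw [← h2]
  exact J.mul_mem_left _ hCw

private lemma Gor_ind (hP : St_Perp) (hDl : St_Dual) (D : Datum L) (e : L) (he : D.Tr e = 1)
    (J : Ideal D.R) (hJ : Ideal.span {x3 D} ≤ J) : ∀ k : ℕ, k ≤ 6 → ∀ a : D.R, a ∈ J →
    ¬ x3 D ∣ a → (X : PowerSeries L) ^ (6 - k) ∣ (a : PowerSeries L) → Gor_w D e ∈ J := by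
  intro k
  induction k with
  | zero =>
    intro _ a _ ha hX
    exfalso
    apply ha
    have h1 := X_pow_dvd_iff.1 hX
    refine Gor_dvd D a (fun m hm => h1 m (by omega)) ?_ ?_ ?_
    · rw [h1 3 (by norm_num)]
      exact D.Fx_zero
    · rw [h1 4 (by norm_num)]
      exact D.A_zero
    · rw [h1 5 (by norm_num)]
      exact D.Tr_zero
  | succ k ih =>
    intro hk a haJ ha hX
    by_cases hr : ∀ r : D.R, coeff 0 (r : PowerSeries L) = 0 → x3 D ∣ r * a
    · exact Gor_main hP hDl D e he J hJ a haJ ha hr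
    · push Not at hr
      obtain ⟨r, hr0, hra⟩ := hr
      refine ih (by omega) (r * a) (J.mul_mem_left r haJ) hra ?_
      have h1 : (X : PowerSeries L) ∣ (r : PowerSeries L) := X_dvd_iff.2 (by
        rw [← hr0, coeff_zero_eq_constantCoeff_apply])
      have h2 := mul_dvd_mul h1 hX
      rw [← pow_succ'] at h2
      have h3 : 6 - (k + 1) + 1 = 6 - k := by omega
      rw [h3] at h2
      exact h2

theorem thm_Gor : St_Gor := by
  intro hP hDl _ L _ D
  obtain ⟨e, he⟩ := (hP hDl D).2.2.2.1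
  have key : ∀ J : Ideal D.R, Ideal.span {x3 D} ≤ J → J ≠ Ideal.span {x3 D} →
      Gor_w D e ∈ J := by
    intro J hJ hne
    have h1 : ∃ a ∈ J, a ∉ Ideal.span {x3 D} := by
      by_contra hcon
      push Not at hcon
      exact hne (le_antisymm (fun a ha => hcon a ha) hJ)
    obtain ⟨a, haJ, ha⟩ := h1
    rw [Ideal.mem_span_singleton] at ha
    exact Gor_ind hP hDl D e he J hJ 6 le_rfl a haJ ha (by rw [Nat.sub_self, pow_zero]; exact one_dvd _)
  refine ⟨?_, ?_⟩
  · rw [isMax_iff_eq_top, Ideal.eq_top_iff_one, Ideal.mem_span_singleton]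
    rintro ⟨q, hq⟩
    have h1 : (1 : PowerSeries L) = X ^ 3 * (q : PowerSeries L) := congrArg Subtype.val hq
    have h2 := congrArg (coeff 0) h1
    rw [coeff_X_pow_mul', if_neg (by norm_num), coeff_one, if_pos rfl] at h2
    exact one_ne_zero h2
  · intro J J' hJJ
    by_contra hcon
    push Not at hcon
    have h1 := key J (hJJ ▸ inf_le_left) hcon.1
    have h2 := key J' (hJJ ▸ inf_le_right) hcon.2
    have h3 : Gor_w D e ∈ J ⊓ J' := ⟨h1, h2⟩
    rw [hJJ, Ideal.mem_span_singleton] at h3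
    exact Gor_w_ndvd D e he h3

end Pool.Agent.HWX
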