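import Pool.Agent.HWX.St2

/-! helper58. The module of HWX is finitely generated, torsionfree and not free. -/

set_option autoImplicit false

namespace Pool.Agent.HWX

open scoped Classical
open PowerSeries

variable {L : Type} [Field L]

private lemma Mod_C (D : Datum L) {k : L} (hk : D.Fx k) : (C k : PowerSeries L) ∈ D.R := by
  rw [D.mem_R]
  refine ⟨?_, ?_, ?_⟩
  · simpa using hk
  · rw [coeff_C]
    simp [D.A_zero]
  · rw [coeff_C]
    simp [D.Tr_zero]

private lemma Mod_X3 (D : Datum L) (y : PowerSeries L) : (X ^ 3 * y : PowerSeries L) ∈ D.R := by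
  have h : ∀ n < 3, coeff n (X ^ 3 * y : PowerSeries L) = 0 := by
    intro n hn
    rw [coeff_X_pow_mul', if_neg (by omega)]
  rw [D.mem_R, h 0 (by norm_num), h 1 (by norm_num), h 2 (by norm_num)]
  exact ⟨D.Fx_zero, D.A_zero, D.Tr_zero⟩

/-- one component -/
private noncomputable def sg (D : Datum L) (i : Fin 6) (f : PowerSeries L) : D.Tw pt :=
  (Pi.single i f : Fin 6 → PowerSeries L)

private lemma sg_same (D : Datum L) (i : Fin 6) (f : PowerSeries L) : sg D i f i = f :=
  Pi.single_eq_same (M := fun _ : Fin 6 => PowerSeries L) i f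

private lemma sg_ne (D : Datum L) {i j : Fin 6} (h : j ≠ i) (f : PowerSeries L) :
    sg D i f j = 0 :=
  Pi.single_eq_of_ne (M := fun _ : Fin 6 => PowerSeries L) h f

private lemma sg_add (D : Datum L) (i : Fin 6) (f g : PowerSeries L) :
    sg D i (f + g) = sg D i f + sg D i g := by
  funext j
  rw [D.add_apply]
  by_cases h : j = i
  · subst h
    rw [sg_same, sg_same, sg_same]
  · rw [sg_ne D h, sg_ne D h, sg_ne D h, add_zero]

private lemma sg_zero (D : Datum L) (i : Fin 6) : sg D i 0 = 0 := by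
  funext j
  rw [D.zero_apply]
  by_cases h : j = i
  · subst h
    rw [sg_same]
  · rw [sg_ne D h]

private lemma sg_sum (D : Datum L) (i : Fin 6) {ι : Type} (s : Finset ι)
    (f : ι → PowerSeries L) : sg D i (∑ k ∈ s, f k) = ∑ k ∈ s, sg D i (f k) := by
  induction s using Finset.induction_on with
  | empty => rw [Finset.sum_empty, Finset.sum_empty, sg_zero]
  | insert a s ha ih => rw [Finset.sum_insert ha, Finset.sum_insert ha, sg_add, ih]

private lemma sg_smul (D : Datum L) (i : Fin 6) (r : D.R) (f g : PowerSeries L)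
    (h : PowerSeries.map (D.tau (pt i)) (r : PowerSeries L) * f = g) :
    sg D i g = r • sg D i f := by
  funext j
  rw [D.smul_apply]
  by_cases hj : j = i
  · subst hj
    rw [sg_same, sg_same, h]
  · rw [sg_ne D hj, sg_ne D hj, mul_zero]

private lemma sg_all (D : Datum L) (x : D.Tw pt) : x = ∑ i, sg D i (x i) := by
  funext j
  have h : ∀ s : Finset (Fin 6), (∑ i ∈ s, sg D i (x i)) j = ∑ i ∈ s, sg D i (x i) j := by
    intro s
    induction s using Finset.induction_on with
    | empty => rw [Finset.sum_empty, Finset.sum_empty, D.zero_apply]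
    | insert a s ha ih => rw [Finset.sum_insert ha, Finset.sum_insert ha, D.add_apply, ih]
  rw [h, Finset.sum_eq_single j]
  · rw [sg_same]
  · intro i _ hi
    exact sg_ne D hi.symm _
  · intro hj
    exact absurd (Finset.mem_univ j) hj

private lemma Mod_map_map (D : Datum L) (g : Gam) (y : PowerSeries L) :
    PowerSeries.map (D.tau g) (PowerSeries.map (D.tau g) y) = y := by
  ext n
  rw [coeff_map, coeff_map, D.tau_tau]

private lemma Mod_split (f : PowerSeries L) :
    ∃ y : PowerSeries L, f = C (coeff 0 f) * X ^ 0 + C (coeff 1 f) * X ^ 1 +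
      C (coeff 2 f) * X ^ 2 + X ^ 3 * y := by
  have h : (X : PowerSeries L) ^ 3 ∣ f - (C (coeff 0 f) * X ^ 0 + C (coeff 1 f) * X ^ 1 +
      C (coeff 2 f) * X ^ 2) := by
    rw [X_pow_dvd_iff]
    intro m hm
    rw [map_sub, map_add, map_add, coeff_C_mul_X_pow, coeff_C_mul_X_pow, coeff_C_mul_X_pow]
    interval_cases m <;> simp
  obtain ⟨y, hy⟩ := h
  exact ⟨y, by rw [← hy]; ring⟩

private lemma Mod_fin (D : Datum L) (al be : Gam → L)
    (hab : ∀ a : L, a = ∑ j, al j * D.Tr (be j * a)) : Module.Finite D.R (D.Tw pt) := by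
  let gen : Fin 6 × Gam × Fin 3 → D.Tw pt := fun q => sg D q.1 (C (al q.2.1) * X ^ (q.2.2 : ℕ))
  have hC : ∀ (i : Fin 6) (a : L) (n : Fin 3),
      sg D i (C a * X ^ (n : ℕ)) ∈ Submodule.span D.R (Set.range gen) := by
    intro i a n
    have e : (C a * X ^ (n : ℕ) : PowerSeries L) =
        ∑ j, C (D.Tr (be j * a)) * (C (al j) * X ^ (n : ℕ)) := by
      conv_lhs => rw [hab a]
      rw [map_sum, Finset.sum_mul]
      refine Finset.sum_congr rfl fun j _ => ?_
      rw [map_mul]
      ring
    rw [e, sg_sum]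
    refine Submodule.sum_mem _ fun j _ => ?_
    rw [sg_smul D i ⟨C (D.Tr (be j * a)), Mod_C D (D.Fx_Tr _)⟩ (C (al j) * X ^ (n : ℕ)) _ (by
      rw [map_C, D.Fx_Tr])]
    exact Submodule.smul_mem _ _ (Submodule.subset_span ⟨(i, j, n), rfl⟩)
  have hone : ∀ i : Fin 6, sg D i 1 ∈ Submodule.span D.R (Set.range gen) := by
    intro i
    have := hC i 1 0
    simpa using this
  have hall : ∀ (i : Fin 6) (f : PowerSeries L),
      sg D i f ∈ Submodule.span D.R (Set.range gen) := by
    intro i f
    obtain ⟨y, hy⟩ := Mod_split f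
    rw [hy, sg_add, sg_add, sg_add]
    refine Submodule.add_mem _ (Submodule.add_mem _ (Submodule.add_mem _ (hC i _ 0)
      (hC i _ 1)) (hC i _ 2)) ?_
    rw [sg_smul D i ⟨X ^ 3 * PowerSeries.map (D.tau (pt i)) y, Mod_X3 D _⟩ 1 _ (by
      rw [map_mul, map_pow, map_X, Mod_map_map, mul_one])]
    exact Submodule.smul_mem _ _ (hone i)
  refine ⟨⟨(Set.finite_range gen).toFinset, ?_⟩⟩
  rw [Set.Finite.coe_toFinset, eq_top_iff]
  intro x _
  rw [sg_all D x]
  exact Submodule.sum_mem _ fun i _ => hall i _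

private noncomputable def fam2 (D : Datum L) (f : Fin 6 → PowerSeries L) : D.Tw pt :=
  fun i => X ^ 2 * f i

private lemma fam2_mem (D : Datum L) (f : Fin 6 → PowerSeries L) : fam2 D f ∈ D.M := by
  rw [D.mem_M]
  have h0 : ∀ i, coeff 0 (fam2 D f i) = 0 := fun i => by
    show coeff 0 (X ^ 2 * f i : PowerSeries L) = 0
    rw [coeff_X_pow_mul', if_neg (by norm_num)]
  have h1 : ∀ i, coeff 1 (fam2 D f i) = 0 := fun i => by
    show coeff 1 (X ^ 2 * f i : PowerSeries L) = 0
    rw [coeff_X_pow_mul', if_neg (by norm_num)]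
  refine ⟨fun i => ?_, ?_⟩
  · rw [h0, h0]
  · refine Finset.sum_eq_zero fun i _ => ?_
    rw [h1, mul_zero]

theorem thm_Mod : St_Mod := by
  intro hPerp hDual L _ D hNoe
  obtain ⟨_, _, _, ⟨e, he⟩, al, be, hab⟩ := hPerp hDual D
  have hinj : ∀ g : Gam, Function.Injective (PowerSeries.map (D.tau g)) := fun g =>
    PowerSeries.map_injective _ (D.tau g).injective
  have hfinT : Module.Finite D.R (D.Tw pt) := Mod_fin D al be hab
  have hnT : IsNoetherian D.R (D.Tw pt) := isNoetherian_of_isNoetherianRing_of_finite _ _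
  have hfin : Module.Finite D.R D.M := inferInstance
  have htf : NoZeroSMulDivisors D.R D.M := by
    refine ⟨fun {r x} h => ?_⟩
    by_cases hr : r = 0
    · exact Or.inl hr
    · right
      apply Subtype.ext
      funext i
      have h1 : PowerSeries.map (D.tau (pt i)) (r : PowerSeries L) * x.1 i = 0 := by
        rw [← D.smul_apply]
        have h2 : (r • x).1 = (0 : D.M).1 := congrArg Subtype.val h
        exact congrFun h2 i
      rcases mul_eq_zero.1 h1 with h2 | h2
      · exfalso
        apply hr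
        apply Subtype.ext
        apply hinj (pt i)
        rw [h2]
        exact (map_zero _).symm
      · exact h2
  refine ⟨hfin, htf, ?_⟩
  intro hfree
  -- a nonzero element
  let b := Module.Free.chooseBasis D.R D.M
  have hne : Nonempty (Module.Free.ChooseBasisIndex D.R D.M) := by
    by_contra hemp
    rw [not_nonempty_iff] at hemp
    have hsub : Subsingleton D.M := by
      have := b.repr.toEquiv.subsingleton_congr
      rw [this]
      infer_instance
    have h1 : (⟨fam2 D fun _ => 1, fam2_mem D _⟩ : D.M) = 0 := Subsingleton.elim _ _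
    have h2 := congrFun (congrArg Subtype.val h1) 0
    have h3 : (X ^ 2 * 1 : PowerSeries L) = 0 := h2
    rw [mul_one] at h3
    exact pow_ne_zero 2 X_ne_zero h3
  obtain ⟨i0⟩ := hne
  set m := b i0 with hm
  let r : D.R := ⟨X ^ 3 * (C e * X ^ 2), Mod_X3 D _⟩
  let y : D.M := ⟨fam2 D fun i => C (D.tau (pt i) e) * m.1 i, fam2_mem D _⟩
  have hy : x3 D • y = r • m := by
    apply Subtype.ext
    funext i
    show (x3 D • y.1) i = (r • m.1) i
    rw [D.smul_apply, D.smul_apply]
    show PowerSeries.map (D.tau (pt i)) (X ^ 3) * (X ^ 2 * (C (D.tau (pt i) e) * m.1 i)) =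
      PowerSeries.map (D.tau (pt i)) (X ^ 3 * (C e * X ^ 2)) * m.1 i
    rw [map_mul, map_mul, map_pow, map_pow, map_X, map_C]
    ring
  have h1 := congrArg (fun z => b.repr z i0) hy
  simp only [map_smul, Finsupp.smul_apply, smul_eq_mul, hm, Module.Basis.repr_self,
    Finsupp.single_eq_same, mul_one] at h1
  have h2 : (X ^ 3 * ((b.repr y i0 : D.R) : PowerSeries L) : PowerSeries L) =
      X ^ 3 * (C e * X ^ 2) := congrArg Subtype.val h1
  have h3 := mul_left_cancel₀ (pow_ne_zero 3 X_ne_zero) h2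
  have h4 : D.Tr (coeff 2 ((b.repr y i0 : D.R) : PowerSeries L)) = 0 := (b.repr y i0).2.2.2
  rw [h3, coeff_C_mul_X_pow, if_pos rfl, he] at h4
  exact one_ne_zero h4

end Pool.Agent.HWX
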