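import Pool.Agent.HWX.St2

/-!
helper1. Module Noether of HWX: the ring is Noetherian (Cohen).
-/

set_option autoImplicit false

namespace Pool.Agent.HWX

open scoped Classical
open PowerSeries

noncomputable section

variable {L : Type} [Field L]

/-- monomials in the ring -/
private def mo (D : Datum L) (n : ℕ) (a : L) (h0 : n = 0 → D.Fx a) (h1 : n = 1 → D.A a = 0)
    (h2 : n = 2 → D.Tr a = 0) : D.R :=
  ⟨monomial n a, by
    rw [D.mem_R]
    simp only [coeff_monomial]
    refine ⟨?_, ?_, ?_⟩
    · split_ifs with h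
      · exact h0 h.symm
      · exact D.Fx_zero
    · split_ifs with h
      · exact h1 h.symm
      · exact D.A_zero
    · split_ifs with h
      · exact h2 h.symm
      · exact D.Tr_zero⟩

private theorem coe_mo (D : Datum L) (n : ℕ) (a : L) (h0 : n = 0 → D.Fx a)
    (h1 : n = 1 → D.A a = 0) (h2 : n = 2 → D.Tr a = 0) :
    ((mo D n a h0 h1 h2 : D.R) : PowerSeries L) = monomial n a := rfl

private theorem mo_mem (D : Datum L) (I : Ideal D.R) (n : ℕ) (u v : Gam → L)
    (hu : ∀ j, D.Fx (u j)) (h0 : ∀ j, n = 0 → D.Fx (v j)) (h1 : ∀ j, n = 1 → D.A (v j) = 0)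
    (h2 : ∀ j, n = 2 → D.Tr (v j) = 0) (hI : ∀ j, mo D n (v j) (h0 j) (h1 j) (h2 j) ∈ I)
    (a : L) (ha : a = ∑ j, u j * v j) (x : D.R) (hx : (x : PowerSeries L) = monomial n a) :
    x ∈ I := by
  have e : x = ∑ j, mo D 0 (u j) (fun _ => hu j) (fun h => absurd h (by norm_num))
      (fun h => absurd h (by norm_num)) * mo D n (v j) (h0 j) (h1 j) (h2 j) := by
    apply Subtype.ext
    rw [hx, ha, map_sum]
    rw [AddSubmonoidClass.coe_finsetSum]
    refine Finset.sum_congr rfl fun j _ => ?_
    rw [Subring.coe_mul, coe_mo, coe_mo, monomial_mul_monomial, zero_add]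
  rw [e]
  exact Ideal.sum_mem _ fun j _ => I.mul_mem_left _ (hI j)

theorem thm_Noether : St_Noether := by
  intro hDual hPerp hUnit hDiv L _ D
  obtain ⟨-, -, -, ⟨e, he⟩, al, be, hal⟩ := hPerp hDual D
  have hne : ∀ {m : ℕ}, 3 ≤ m → ¬ m = 0 ∧ ¬ m = 1 ∧ ¬ m = 2 := fun {m} h => by omega
  refine IsNoetherianRing.of_prime_ne_bot fun P hP hP0 => ?_
  obtain ⟨s, hs, hs0⟩ := Submodule.exists_mem_ne_zero_of_ne_bot hP0
  have hmem : ∀ x : D.R, coeff 0 (x : PowerSeries L) = 0 → x ∈ P := by
    intro x hx
    obtain ⟨N, hN⟩ := hDiv D x s hx hs0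
    exact hP.mem_of_pow_mem N (P.mem_of_dvd hN hs)
  have hmem' : ∀ x ∈ P, coeff 0 (x : PowerSeries L) = 0 := by
    intro x hx
    by_contra h
    exact hP.ne_top (P.eq_top_of_isUnit_mem hx ((hUnit D x).2 h))
  -- the generators
  let g1 : Gam → D.R := fun j => mo D 1 (D.A (al j)) (fun h => absurd h (by norm_num))
    (fun _ => D.A_A _) (fun h => absurd h (by norm_num))
  have hh : ∀ j, D.Tr (al j - D.Tr (al j) * e) = 0 := by
    intro j
    rw [sub_eq_add_neg, D.Tr_add, D.Tr_neg, D.Tr_mul_fx (D.Fx_Tr _), he, mul_one, add_neg_cancel]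
  let g2 : Gam → D.R := fun j => mo D 2 (al j - D.Tr (al j) * e) (fun h => absurd h (by norm_num))
    (fun h => absurd h (by norm_num)) (fun _ => hh j)
  let gn : Fin 3 × Gam → D.R := fun q => mo D (q.1 + 3) (al q.2)
    (fun h => absurd h (hne (by omega)).1) (fun h => absurd h (hne (by omega)).2.1)
    (fun h => absurd h (hne (by omega)).2.2)
  obtain ⟨I, hI⟩ : ∃ I : Ideal D.R, I = Ideal.span (Set.range g1 ∪ Set.range g2 ∪ Set.range gn) :=
    ⟨_, rfl⟩
  have hIfg : I.FG := by
    rw [hI]
    exact Submodule.fg_span (((Set.finite_range g1).union (Set.finite_range g2)).union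
      (Set.finite_range gn))
  have m1 : ∀ j, g1 j ∈ I := fun j => by
    rw [hI]
    exact Ideal.subset_span (Or.inl (Or.inl ⟨j, rfl⟩))
  have m2 : ∀ j, g2 j ∈ I := fun j => by
    rw [hI]
    exact Ideal.subset_span (Or.inl (Or.inr ⟨j, rfl⟩))
  have mn : ∀ q, gn q ∈ I := fun q => by
    rw [hI]
    exact Ideal.subset_span (Or.inr ⟨q, rfl⟩)
  -- monomials of degree three, four, five
  have hmn : ∀ (i : Fin 3) (a : L) (x : D.R), (x : PowerSeries L) = monomial ((i : ℕ) + 3) a →
      x ∈ I := by
    intro i a x hx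
    exact mo_mem D I ((i : ℕ) + 3) (fun j => D.Tr (be j * a)) al (fun j => D.Fx_Tr _)
      (fun j h => absurd h (hne (by omega)).1) (fun j h => absurd h (hne (by omega)).2.1)
      (fun j h => absurd h (hne (by omega)).2.2) (fun j => mn (i, j)) a
      (by
        conv_lhs => rw [hal a]
        exact Finset.sum_congr rfl fun j _ => mul_comm _ _) x hx
  have hPI : P = I := by
    apply le_antisymm
    · intro x hx
      have hx0 := hmem' x hx
      obtain ⟨-, hx1, hx2⟩ := (D.mem_R _).1 x.2
      obtain ⟨b, hb⟩ := D.ker_im _ hx1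
      obtain ⟨f, hf⟩ : ∃ f : ℕ → L, f = fun n => coeff n (x : PowerSeries L) := ⟨_, rfl⟩
      -- the rest
      have ht : (X ^ 3 * PowerSeries.mk fun n => f (n + 6)) ∈ D.R := by
        rw [D.mem_R]
        simp only [coeff_X_pow_mul']
        simp [D.Fx_zero, D.A_zero, D.Tr_zero]
      have ex : x = mo D 1 (f 1) (fun h => absurd h (by norm_num)) (fun _ => by rw [hf]; exact hx1)
          (fun h => absurd h (by norm_num)) +
        mo D 2 (f 2) (fun h => absurd h (by norm_num)) (fun h => absurd h (by norm_num))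
          (fun _ => by rw [hf]; exact hx2) +
        mo D 3 (f 3) (fun h => absurd h (by norm_num)) (fun h => absurd h (by norm_num))
          (fun h => absurd h (by norm_num)) +
        mo D 4 (f 4) (fun h => absurd h (by norm_num)) (fun h => absurd h (by norm_num))
          (fun h => absurd h (by norm_num)) +
        mo D 5 (f 5) (fun h => absurd h (by norm_num)) (fun h => absurd h (by norm_num))
          (fun h => absurd h (by norm_num)) +
        ⟨_, ht⟩ * mo D 3 1 (fun h => absurd h (by norm_num)) (fun h => absurd h (by norm_num))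
          (fun h => absurd h (by norm_num)) := by
        apply Subtype.ext
        simp only [Subring.coe_add, Subring.coe_mul, coe_mo]
        have e1 : (X ^ 3 * PowerSeries.mk fun n => f (n + 6)) * monomial 3 (1 : L) =
            X ^ 6 * PowerSeries.mk fun n => f (n + 6) := by
          have : (monomial 3 (1 : L) : PowerSeries L) = X ^ 3 := (X_pow_eq 3).symm
          rw [this]
          ring
        rw [e1]
        ext n
        simp only [map_add, coeff_monomial, coeff_X_pow_mul', coeff_mk]
        rcases n with _ | _ | _ | _ | _ | _ | n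
        · simpa using hx0
        · simp [hf]
        · simp [hf]
        · simp [hf]
        · simp [hf]
        · simp [hf]
        · have h6 : 6 ≤ n + 1 + 1 + 1 + 1 + 1 + 1 := by omega
          rw [if_neg (by omega), if_neg (by omega), if_neg (by omega), if_neg (by omega),
            if_neg (by omega), if_pos h6, hf]
          simp
      rw [ex]
      refine I.add_mem (I.add_mem (I.add_mem (I.add_mem (I.add_mem ?_ ?_) ?_) ?_) ?_) ?_
      · refine mo_mem D I 1 (fun j => D.Tr (be j * b)) (fun j => D.A (al j)) (fun j => D.Fx_Tr _)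
          (fun j h => absurd h (by norm_num)) (fun j _ => D.A_A _)
          (fun j h => absurd h (by norm_num)) m1 (f 1) ?_ _ (coe_mo _ _ _ _ _ _)
        rw [hf]
        show coeff 1 (x : PowerSeries L) = _
        rw [← hb]
        conv_lhs => rw [hal b]
        rw [show D.A (∑ j, al j * D.Tr (be j * b)) = ∑ j, D.A (al j * D.Tr (be j * b)) from by
          simp only [Datum.A, map_sum, Finset.mul_sum]
          rw [Finset.sum_comm]]
        refine Finset.sum_congr rfl fun j _ => ?_
        rw [mul_comm (al j), D.A_mul_fx (D.Fx_Tr _)]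
      · refine mo_mem D I 2 (fun j => D.Tr (be j * f 2)) (fun j => al j - D.Tr (al j) * e)
          (fun j => D.Fx_Tr _) (fun j h => absurd h (by norm_num))
          (fun j h => absurd h (by norm_num)) (fun j _ => hh j) m2 (f 2) ?_ _
          (coe_mo _ _ _ _ _ _)
        have h3 : ∑ j, D.Tr (be j * f 2) * D.Tr (al j) = 0 := by
          have h4 : D.Tr (f 2) = 0 := by
            rw [hf]
            exact hx2
          rw [← h4]
          conv_rhs => rw [hal (f 2)]
          rw [D.Tr_sum]
          refine Finset.sum_congr rfl fun j _ => ?_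
          rw [mul_comm (al j), D.Tr_mul_fx (D.Fx_Tr _)]
        have h5 : ∑ j, D.Tr (be j * f 2) * (al j - D.Tr (al j) * e) =
            ∑ j, al j * D.Tr (be j * f 2) - (∑ j, D.Tr (be j * f 2) * D.Tr (al j)) * e := by
          rw [Finset.sum_mul, ← Finset.sum_sub_distrib]
          exact Finset.sum_congr rfl fun j _ => by ring
        rw [h5, h3, zero_mul, sub_zero]
        exact hal (f 2)
      · exact hmn 0 (f 3) _ (coe_mo _ _ _ _ _ _)
      · exact hmn 1 (f 4) _ (coe_mo _ _ _ _ _ _)
      · exact hmn 2 (f 5) _ (coe_mo _ _ _ _ _ _)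
      · exact I.mul_mem_left _ (hmn 0 1 _ (coe_mo _ _ _ _ _ _))
    · rw [hI, Ideal.span_le]
      rintro x ((⟨j, rfl⟩ | ⟨j, rfl⟩) | ⟨q, rfl⟩)
      · refine hmem _ ?_
        show coeff 0 (monomial 1 _ : PowerSeries L) = 0
        rw [coeff_monomial]
        exact if_neg (by norm_num)
      · refine hmem _ ?_
        show coeff 0 (monomial 2 _ : PowerSeries L) = 0
        rw [coeff_monomial]
        exact if_neg (by norm_num)
      · refine hmem _ ?_
        show coeff 0 (monomial _ _ : PowerSeries L) = 0
        rw [coeff_monomial]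
        exact if_neg (by omega)
  rw [hPI]
  exact hIfg

end

end Pool.Agent.HWX
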