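import Pool.Agent.HWX.St2

/-!
helper77. The ring is local, of Krull dimension one, and Gorenstein in the sense of the frozen statement.
-/

set_option autoImplicit false

namespace Pool.Agent.HWX

open scoped Classical
open PowerSeries

variable {L : Type} [Field L]

theorem thm_Pack : St_Pack := by
  intro hU hDv L _ D hI
  have hnu : ∀ a : D.R, a ∈ nonunits D.R ↔ coeff 0 (a : PowerSeries L) = 0 := by
    intro a
    rw [mem_nonunits_iff, hU D a, not_not]
  have hloc : IsLocalRing D.R := by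
    refine IsLocalRing.of_nonunits_add fun a b ha hb => ?_
    rw [hnu] at ha hb ⊢
    show coeff 0 ((a : PowerSeries L) + (b : PowerSeries L)) = 0
    rw [map_add, ha, hb, add_zero]
  have hmax : ∀ x : D.R, x ∈ IsLocalRing.maximalIdeal D.R ↔ coeff 0 (x : PowerSeries L) = 0 := by
    intro x
    rw [IsLocalRing.mem_maximalIdeal, hnu]
  have hx3 : x3 D ≠ 0 := by
    intro h0
    have h1 : (X ^ 3 : PowerSeries L) = 0 := congrArg Subtype.val h0
    exact pow_ne_zero 3 X_ne_zero h1
  have hx3m : x3 D ∈ IsLocalRing.maximalIdeal D.R := by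
    rw [hmax]
    show coeff 0 (X ^ 3 : PowerSeries L) = 0
    rw [coeff_X_pow, if_neg (by norm_num)]
  have hprime : ∀ P : Ideal D.R, P ≠ ⊥ → P.IsPrime → P.IsMaximal := by
    intro P hP hPp
    obtain ⟨s, hsP, hs0⟩ := Submodule.exists_mem_ne_zero_of_ne_bot hP
    have h1 : IsLocalRing.maximalIdeal D.R ≤ P := by
      intro x hx
      rw [hmax] at hx
      obtain ⟨N, hN⟩ := hDv D x s hx hs0
      exact hPp.mem_of_pow_mem N (P.mem_of_dvd hN hsP)
    have h2 : P = IsLocalRing.maximalIdeal D.R :=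
      le_antisymm (IsLocalRing.le_maximalIdeal hPp.ne_top) h1
    rw [h2]
    exact IsLocalRing.maximalIdeal.isMaximal _
  have hdim : ringKrullDim D.R = 1 := by
    apply le_antisymm
    · have h1 : Ring.KrullDimLE 1 D.R := Ring.KrullDimLE.mk₁' hprime
      have h2 := (Order.krullDimLE_iff 1 (PrimeSpectrum D.R)).1 h1
      exact_mod_cast h2
    · have h3 : (⊥ : Ideal D.R).IsPrime := Ideal.isPrime_bot
      refine Order.one_le_krullDim_iff.2 ⟨⟨⊥, h3⟩, ⟨IsLocalRing.maximalIdeal D.R,
        (IsLocalRing.maximalIdeal.isMaximal D.R).isPrime⟩, ?_⟩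
      show (⊥ : Ideal D.R) < IsLocalRing.maximalIdeal D.R
      rw [bot_lt_iff_ne_bot]
      intro h4
      rw [h4] at hx3m
      exact hx3 ((Submodule.mem_bot _).1 hx3m)
  refine ⟨hloc, hmax, ⟨hdim, [x3 D], ?_, ?_, ?_, ?_⟩, ⟨?_, x3 D, hx3m, hx3, hI⟩⟩
  · intro x hx
    rw [List.mem_singleton] at hx
    rw [hx]
    exact hx3m
  · refine ⟨(RingTheory.Sequence.isWeaklyRegular_singleton_iff D.R (x3 D)).2 ?_, ?_⟩
    · intro a b hab
      exact mul_left_cancel₀ hx3 hab
    · intro h5
      have h6 : (1 : D.R) ∈ (Ideal.ofList [x3 D] • (⊤ : Submodule D.R D.R)) := by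
        rw [← h5]
        exact Submodule.mem_top
      rw [Ideal.ofList_singleton, smul_eq_mul, Ideal.mul_top] at h6
      have h7 : Ideal.span {x3 D} ≤ IsLocalRing.maximalIdeal D.R := by
        rw [Ideal.span_singleton_le_iff_mem]
        exact hx3m
      exact (Ideal.ne_top_iff_one _).1 (IsLocalRing.maximalIdeal.isMaximal D.R).ne_top (h7 h6)
  · rw [hdim]
    rfl
  · have h8 : {r : D.R | r ∈ [x3 D]} = {x3 D} := by
      ext r
      simp
    rw [h8]
    exact hI
  · intro x hx s hs
    rw [hmax] at hx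
    exact hDv D x s hx hs

end Pool.Agent.HWX
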