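import Pool.Agent.HWX.St2

/-!
helper77. Perpendicular facts for the trace form.
-/

set_option autoImplicit false

namespace Pool.Agent.HWX

open scoped Classical
open PowerSeries

variable {L : Type} [Field L]

private lemma Perp_rep (D : Datum L) (al be : Gam → L)
    (h : ∀ g : Gam, ∑ j, al j * D.tau g (be j) = if g = 0 then 1 else 0) (a : L) :
    a = ∑ j, al j * D.Tr (be j * a) := by
  have e : ∀ j, al j * D.Tr (be j * a) = ∑ g, D.tau g a * (al j * D.tau g (be j)) := by
    intro j
    unfold Datum.Tr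
    rw [Finset.mul_sum]
    refine Finset.sum_congr rfl fun g _ => ?_
    rw [map_mul]
    ring
  rw [Finset.sum_congr rfl fun j _ => e j, Finset.sum_comm]
  have e2 : ∀ g, ∑ j, D.tau g a * (al j * D.tau g (be j)) = if g = 0 then a else 0 := by
    intro g
    rw [← Finset.mul_sum, h g]
    split_ifs with h0
    · rw [h0, D.tau_zero, mul_one]
    · rw [mul_zero]
  rw [Finset.sum_congr rfl fun g _ => e2 g, Finset.sum_ite_eq' Finset.univ (0 : Gam) (fun _ => a),
    if_pos (Finset.mem_univ _)]

theorem thm_Perp : St_Perp := by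
  intro hDl L _ D
  obtain ⟨al, be, hab⟩ := hDl D
  have rep := Perp_rep D al be hab
  have p0 : ∀ z : L, (∀ y, D.Tr (z * y) = 0) → z = 0 := by
    intro z hz
    rw [rep z]
    refine Finset.sum_eq_zero fun j _ => ?_
    rw [mul_comm (be j) z, hz, mul_zero]
  refine ⟨p0, ?_, ?_, ?_, ⟨al, be, rep⟩⟩
  · intro a h
    refine p0 _ fun y => ?_
    rw [D.adj]
    exact h _ (D.A_A y)
  · intro a h g
    have h1 : a + D.tau g a = 0 := by
      refine p0 _ fun y => ?_
      have h2 : D.Tr (y + D.tau g y) = 0 := by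
        rw [D.Tr_add, D.Tr_tau, D.add_self]
      have h3 := h _ h2
      have h4 : D.Tr (a * D.tau g y) = D.Tr (D.tau g a * y) := by
        rw [← D.Tr_tau g (a * D.tau g y), map_mul, D.tau_tau]
      rw [mul_add, D.Tr_add, h4] at h3
      rw [add_mul, D.Tr_add, h3]
    have h5 := eq_neg_of_add_eq_zero_right h1
    rw [h5, D.neg_self]
  · by_contra hcon
    push Not at hcon
    have h1 : ∀ y, D.Tr y = 0 := by
      intro y
      by_contra hy
      refine hcon ((D.Tr y)⁻¹ * y) ?_
      rw [D.Tr_mul_fx (D.Fx_inv (D.Fx_Tr y)), inv_mul_cancel₀ hy]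
    exact one_ne_zero (p0 1 fun y => h1 _)

end Pool.Agent.HWX
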