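import Pool.Agent.HWX.St2

/-!
helper77. Units of the ring.
-/

set_option autoImplicit false

namespace Pool.Agent.HWX

open scoped Classical
open PowerSeries

variable {L : Type} [Field L]

private lemma Unit_c1 (f g : PowerSeries L) :
    coeff 1 (f * g) = coeff 0 f * coeff 1 g + coeff 0 g * coeff 1 f := by
  rw [coeff_mul, Finset.Nat.sum_antidiagonal_succ]
  simp
  ring

private lemma Unit_c2 (f g : PowerSeries L) :
    coeff 2 (f * g) =
      coeff 0 f * coeff 2 g + coeff 1 f * coeff 1 g + coeff 0 g * coeff 2 f := by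
  rw [coeff_mul, Finset.Nat.sum_antidiagonal_succ, Finset.Nat.sum_antidiagonal_succ]
  simp
  ring

private lemma Unit_c0 (f g : PowerSeries L) : coeff 0 (f * g) = coeff 0 f * coeff 0 g := by
  simp [coeff_mul]

theorem thm_Unit : St_Unit := by
  intro L _ D x
  constructor
  · intro hx h0
    obtain ⟨y, hy⟩ := hx.exists_right_inv
    have h1 : (x : PowerSeries L) * (y : PowerSeries L) = 1 := congrArg Subtype.val hy
    have h2 := congrArg (coeff 0) h1
    rw [Unit_c0, h0, zero_mul, coeff_one, if_pos rfl] at h2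
    exact zero_ne_one h2
  · intro h0
    have hc : constantCoeff (x : PowerSeries L) ≠ 0 := by
      rw [← coeff_zero_eq_constantCoeff_apply]
      exact h0
    have h1 : (x : PowerSeries L) * (x : PowerSeries L)⁻¹ = 1 := PowerSeries.mul_inv_cancel _ hc
    set y := (x : PowerSeries L)⁻¹ with hy
    have hx0 : D.Fx (coeff 0 (x : PowerSeries L)) := x.2.1
    have hx1 : D.A (coeff 1 (x : PowerSeries L)) = 0 := x.2.2.1
    have hx2 : D.Tr (coeff 2 (x : PowerSeries L)) = 0 := x.2.2.2
    have e0 := congrArg (coeff 0) h1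
    have e1 := congrArg (coeff 1) h1
    have e2 := congrArg (coeff 2) h1
    rw [Unit_c0, coeff_one, if_pos rfl] at e0
    rw [Unit_c1, coeff_one, if_neg (by norm_num)] at e1
    rw [Unit_c2, coeff_one, if_neg (by norm_num)] at e2
    have hy0 : coeff 0 y = (coeff 0 (x : PowerSeries L))⁻¹ := eq_inv_of_mul_eq_one_right e0
    have hF0 : D.Fx (coeff 0 y) := by
      rw [hy0]
      exact D.Fx_inv hx0
    have hy1 : coeff 1 y = (-(coeff 0 (x : PowerSeries L))⁻¹ * coeff 0 y) *
        coeff 1 (x : PowerSeries L) := by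
      field_simp
      linear_combination e1
    have hF1 : D.A (coeff 1 y) = 0 := by
      rw [hy1, D.A_mul_fx (D.Fx_mul (D.Fx_neg (D.Fx_inv hx0)) hF0), hx1, mul_zero]
    have hy2 : coeff 2 y = (-(coeff 0 (x : PowerSeries L))⁻¹) *
        (coeff 1 (x : PowerSeries L) * coeff 1 y + coeff 0 y * coeff 2 (x : PowerSeries L)) := by
      field_simp
      linear_combination e2
    have hF2 : D.Tr (coeff 2 y) = 0 := by
      rw [hy2, D.Tr_mul_fx (D.Fx_neg (D.Fx_inv hx0)), D.Tr_add, D.VV hx1 hF1, D.Tr_mul_fx hF0, hx2,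
        mul_zero, add_zero, mul_zero]
    exact IsUnit.of_mul_eq_one (⟨y, hF0, hF1, hF2⟩ : D.R) (Subtype.ext h1)

end Pool.Agent.HWX
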