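import Pool.Agent.HWX.E4
import Pool.Agent.HWX.Ex
import Pool.Agent.HWX.Dual
import Pool.Agent.HWX.Perp
import Pool.Agent.HWX.Unit
import Pool.Agent.HWX.Divide
import Pool.Agent.HWX.Noether
import Pool.Agent.HWX.Gor
import Pool.Agent.HWX.Pack
import Pool.Agent.HWX.Mod
import Pool.Agent.HWC.ReflLift

/-! helper11. A one-dimensional Gorenstein local domain with a torsionfree module `M`, not free,
such that `M ⊗ M*` is reflexive. -/

set_option autoImplicit false

namespace Pool.Agent.HWX

theorem counterexample : ∃ (R : Type) (_ : CommRing R) (_ : IsDomain R) (_ : IsLocalRing R)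
    (_ : IsNoetherianRing R), HWC.GorOne R ∧
    ∃ (M : Type) (_ : AddCommGroup M) (_ : Module R M) (_ : Module.Finite R M)
      (_ : NoZeroSMulDivisors R M),
      Module.IsReflexive R (TensorProduct R M (Module.Dual R M)) ∧ ¬ Module.Free R M := by
  obtain ⟨L, hL, ⟨D⟩⟩ := thm_Ex
  have hirr := thm_Gor thm_Perp thm_Dual thm_Unit D
  obtain ⟨hloc, hmax, hgor, hpkg⟩ := thm_Pack thm_Unit thm_Divide D hirr
  have hnoeth : IsNoetherianRing D.R := thm_Noether thm_Dual thm_Perp thm_Unit thm_Divide D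
  obtain ⟨hfin, htf, hfree⟩ := thm_Mod thm_Perp thm_Dual D hnoeth
  have hx : x3 D ∈ IsLocalRing.maximalIdeal D.R := by
    rw [hmax]
    simp [x3, PowerSeries.coeff_X_pow]
  have hx0 : x3 D ≠ 0 := by
    intro h
    have h1 : ((x3 D : D.R) : PowerSeries L) = 0 := by rw [h]; rfl
    exact pow_ne_zero 3 PowerSeries.X_ne_zero h1
  have hM : HWC.TF D.R D.M := fun s m h => smul_eq_zero.1 h
  refine ⟨D.R, inferInstance, inferInstance, hloc, hnoeth, hgor, D.M, inferInstance,
    inferInstance, hfin, htf, ?_, hfree⟩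
  exact HWC.reflexive_of_lift D.R hpkg D.M hM (x3 D) hx hx0 (D.lift thm_Dual)

end Pool.Agent.HWX
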