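import Pool.Agent.HWX.F

/-! helper11. The ring, the modules, and the map between them. -/

set_option autoImplicit false

namespace Pool.Agent.HWX

open scoped Classical
open PowerSeries

noncomputable section

variable {L : Type} [Field L]

namespace Datum

/-- the ring: constant coefficient fixed, coefficient of `X` killed by `A`,
coefficient of `X ^ 2` of trace zero -/
def R (D : Datum L) : Subring (PowerSeries L) where
  carrier := {f | D.Fx (coeff 0 f) ∧ D.A (coeff 1 f) = 0 ∧ D.Tr (coeff 2 f) = 0}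
  zero_mem' := by simp [D.Fx_zero, D.A_zero, D.Tr_zero]
  one_mem' := by
    refine ⟨?_, ?_, ?_⟩
    · simpa [coeff_one] using D.Fx_one
    · simp [coeff_one, D.A_zero]
    · simp [coeff_one, D.Tr_zero]
  add_mem' := by
    rintro f g ⟨hf0, hf1, hf2⟩ ⟨hg0, hg1, hg2⟩
    refine ⟨?_, ?_, ?_⟩
    · rw [map_add]; exact D.Fx_add hf0 hg0
    · rw [map_add, D.A_add, hf1, hg1, add_zero]
    · rw [map_add, D.Tr_add, hf2, hg2, add_zero]
  neg_mem' := by
    rintro f ⟨hf0, hf1, hf2⟩
    refine ⟨?_, ?_, ?_⟩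
    · rw [map_neg]; exact D.Fx_neg hf0
    · rw [map_neg, D.A_neg, hf1, neg_zero]
    · rw [map_neg, D.Tr_neg, hf2, neg_zero]
  mul_mem' := by
    rintro f g ⟨hf0, hf1, hf2⟩ ⟨hg0, hg1, hg2⟩
    have e0 : coeff 0 (f * g) = coeff 0 f * coeff 0 g := by
      simp [coeff_mul]
    have e1 : coeff 1 (f * g) = coeff 0 f * coeff 1 g + coeff 0 g * coeff 1 f := by
      rw [coeff_mul, Finset.Nat.sum_antidiagonal_succ]
      simp; ring
    have e2 : coeff 2 (f * g) =
        coeff 0 f * coeff 2 g + coeff 1 f * coeff 1 g + coeff 0 g * coeff 2 f := by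
      rw [coeff_mul, Finset.Nat.sum_antidiagonal_succ, Finset.Nat.sum_antidiagonal_succ]
      simp; ring
    refine ⟨?_, ?_, ?_⟩
    · rw [e0]; exact D.Fx_mul hf0 hg0
    · rw [e1, D.A_add, D.A_mul_fx hf0, D.A_mul_fx hg0, hf1, hg1, mul_zero, mul_zero, add_zero]
    · rw [e2, D.Tr_add, D.Tr_add, D.Tr_mul_fx hf0, D.Tr_mul_fx hg0, hf2, hg2, D.VV hf1 hg1,
        mul_zero, mul_zero, add_zero, add_zero]

theorem mem_R (D : Datum L) (f : PowerSeries L) :
    f ∈ D.R ↔ D.Fx (coeff 0 f) ∧ D.A (coeff 1 f) = 0 ∧ D.Tr (coeff 2 f) = 0 := Iff.rfl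

/-- Families of power series indexed by `ι`, on which the ring acts on the
component `i` through the automorphism `tau (p i)`. -/
def Tw (_D : Datum L) {ι : Type} (_p : ι → Gam) : Type := ι → PowerSeries L

instance (D : Datum L) {ι : Type} (p : ι → Gam) : AddCommGroup (D.Tw p) :=
  inferInstanceAs (AddCommGroup (ι → PowerSeries L))

/-- the ring homomorphism through which the ring acts -/
def twHom (D : Datum L) {ι : Type} (p : ι → Gam) : D.R →+* (ι → PowerSeries L) :=
  Pi.ringHom fun i => (PowerSeries.map (D.tau (p i))).comp D.R.subtype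

instance (D : Datum L) {ι : Type} (p : ι → Gam) : Module D.R (D.Tw p) :=
  Module.compHom (ι → PowerSeries L) (D.twHom p)

theorem smul_apply (D : Datum L) {ι : Type} (p : ι → Gam) (r : D.R) (x : D.Tw p) (i : ι) :
    (r • x) i = PowerSeries.map (D.tau (p i)) (r : PowerSeries L) * x i := rfl

theorem add_apply (D : Datum L) {ι : Type} (p : ι → Gam) (x y : D.Tw p) (i : ι) :
    (x + y) i = x i + y i := rfl

theorem zero_apply (D : Datum L) {ι : Type} (p : ι → Gam) (i : ι) :
    (0 : D.Tw p) i = 0 := rfl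

theorem coeff_smul0 (D : Datum L) {ι : Type} (p : ι → Gam) (r : D.R) (x : D.Tw p) (i : ι) :
    coeff 0 ((r • x) i) = coeff 0 (r : PowerSeries L) * coeff 0 (x i) := by
  rw [smul_apply]
  have : D.tau (p i) (coeff 0 (r : PowerSeries L)) = coeff 0 (r : PowerSeries L) := r.2.1 _
  simpa [coeff_mul] using Or.inl this

theorem coeff_smul1 (D : Datum L) {ι : Type} (p : ι → Gam) (r : D.R) (x : D.Tw p) (i : ι) :
    coeff 1 ((r • x) i) = coeff 0 (r : PowerSeries L) * coeff 1 (x i)
      + D.tau (p i) (coeff 1 (r : PowerSeries L)) * coeff 0 (x i) := by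
  rw [smul_apply]
  have : D.tau (p i) (coeff 0 (r : PowerSeries L)) = coeff 0 (r : PowerSeries L) := r.2.1 _
  rw [coeff_mul, Finset.Nat.sum_antidiagonal_succ]
  simp only [coeff_map, this]
  simp

theorem coeff_smul2 (D : Datum L) {ι : Type} (p : ι → Gam) (r : D.R) (x : D.Tw p) (i : ι) :
    coeff 2 ((r • x) i) = coeff 0 (r : PowerSeries L) * coeff 2 (x i)
      + D.tau (p i) (coeff 1 (r : PowerSeries L)) * coeff 1 (x i)
      + D.tau (p i) (coeff 2 (r : PowerSeries L)) * coeff 0 (x i) := by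
  rw [smul_apply]
  have : D.tau (p i) (coeff 0 (r : PowerSeries L)) = coeff 0 (r : PowerSeries L) := r.2.1 _
  rw [coeff_mul, Finset.Nat.sum_antidiagonal_succ, Finset.Nat.sum_antidiagonal_succ]
  simp only [coeff_map, this]
  simp
  ring

/-- The module: six power series with equal constant coefficients and with
`sum c_i (coefficient of X) = 0`. -/
def M (D : Datum L) : Submodule D.R (D.Tw pt) where
  carrier := {x | (∀ i, coeff 0 (x i) = coeff 0 (x 0)) ∧ ∑ i, D.c i * coeff 1 (x i) = 0}
  zero_mem' := by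
    refine ⟨fun i => ?_, ?_⟩
    · simp only [zero_apply, map_zero]
    · simp only [zero_apply, map_zero, mul_zero, Finset.sum_const_zero]
  add_mem' := by
    rintro x y ⟨hx0, hx1⟩ ⟨hy0, hy1⟩
    refine ⟨fun i => ?_, ?_⟩
    · simp only [add_apply, map_add, hx0 i, hy0 i]
    · simp only [add_apply, map_add, mul_add, Finset.sum_add_distrib, hx1, hy1, add_zero]
  smul_mem' := by
    rintro r x ⟨hx0, hx1⟩
    refine ⟨fun i => ?_, ?_⟩
    · rw [coeff_smul0, coeff_smul0, hx0 i]
    · have e : ∀ i, D.c i * coeff 1 ((r • x) i) =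
          coeff 0 (r : PowerSeries L) * (D.c i * coeff 1 (x i))
          + (D.c i * D.tau (pt i) (coeff 1 (r : PowerSeries L))) * coeff 0 (x 0) := fun i => by
        rw [coeff_smul1, hx0 i]; ring
      simp only [e, Finset.sum_add_distrib, ← Finset.mul_sum, ← Finset.sum_mul, hx1]
      have : ∑ i, D.c i * D.tau (pt i) (coeff 1 (r : PowerSeries L)) = 0 := r.2.2.1
      rw [this]; simp

theorem mem_M (D : Datum L) (x : D.Tw pt) :
    x ∈ D.M ↔ (∀ i, coeff 0 (x i) = coeff 0 (x 0)) ∧ ∑ i, D.c i * coeff 1 (x i) = 0 := Iff.rfl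

/-- The big module: families of power series indexed by the group with constant
leading coefficients, coefficients of `X` in the code, and coefficients of
`X ^ 2` of sum zero. -/
def RL (D : Datum L) : Submodule D.R (D.Tw (fun g : Gam => g)) where
  carrier := {x | (∀ g, coeff 0 (x g) = coeff 0 (x 0)) ∧
    (∀ u, ∑ i, D.c i * coeff 1 (x (pt i + u)) = 0) ∧ ∑ g, coeff 2 (x g) = 0}
  zero_mem' := by
    refine ⟨fun i => ?_, fun u => ?_, ?_⟩
    · simp only [zero_apply, map_zero]
    · simp only [zero_apply, map_zero, mul_zero, Finset.sum_const_zero]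
    · simp only [zero_apply, map_zero, Finset.sum_const_zero]
  add_mem' := by
    rintro x y ⟨hx0, hx1, hx2⟩ ⟨hy0, hy1, hy2⟩
    refine ⟨fun i => ?_, fun u => ?_, ?_⟩
    · simp only [add_apply, map_add, hx0 i, hy0 i]
    · simp only [add_apply, map_add, mul_add, Finset.sum_add_distrib, hx1, hy1, add_zero]
    · simp only [add_apply, map_add, Finset.sum_add_distrib, hx2, hy2, add_zero]
  smul_mem' := by
    rintro r x ⟨hx0, hx1, hx2⟩
    refine ⟨fun i => ?_, fun u => ?_, ?_⟩
    · rw [coeff_smul0, coeff_smul0, hx0 i]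
    · have e : ∀ i, D.c i * coeff 1 ((r • x) (pt i + u)) =
          coeff 0 (r : PowerSeries L) * (D.c i * coeff 1 (x (pt i + u)))
          + D.tau u (D.c i * D.tau (pt i) (coeff 1 (r : PowerSeries L))) * coeff 0 (x 0) :=
        fun i => by
        rw [coeff_smul1, hx0 (pt i + u), map_mul, D.tau_c, ← D.tau_add, add_comm u]; ring
      simp only [e, Finset.sum_add_distrib, ← Finset.mul_sum, ← Finset.sum_mul, hx1 u,
        ← map_sum]
      have : ∑ i, D.c i * D.tau (pt i) (coeff 1 (r : PowerSeries L)) = 0 := r.2.2.1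
      rw [this]; simp
    · have e : ∀ g, coeff 2 ((r • x) g) = coeff 0 (r : PowerSeries L) * coeff 2 (x g)
          + D.tau g (coeff 1 (r : PowerSeries L)) * coeff 1 (x g)
          + D.tau g (coeff 2 (r : PowerSeries L)) * coeff 0 (x 0) := fun g => by
        rw [coeff_smul2, hx0 g]
      simp only [e, Finset.sum_add_distrib, ← Finset.mul_sum, ← Finset.sum_mul, hx2]
      have h2 : ∑ g, D.tau g (coeff 2 (r : PowerSeries L)) = 0 := r.2.2.2
      obtain ⟨b, hb⟩ := D.ker_im _ r.2.2.1
      have h1 : ∑ g, D.tau g (coeff 1 (r : PowerSeries L)) * coeff 1 (x g) = 0 := by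
        rw [← hb]
        have e1 : ∀ g, D.tau g (D.A b) * coeff 1 (x g) =
            ∑ i, D.c i * (D.tau (g + pt i) b * coeff 1 (x g)) := fun g => by
          simp only [Datum.A, map_sum, map_mul, D.tau_c, Finset.sum_mul, D.tau_add]
          exact Finset.sum_congr rfl fun i _ => by ring
        simp only [e1]
        rw [Finset.sum_comm]
        have e2 : ∀ i, ∑ g, D.c i * (D.tau (g + pt i) b * coeff 1 (x g)) =
            ∑ g, D.tau g b * (D.c i * coeff 1 (x (pt i + g))) := fun i => by
          refine Fintype.sum_equiv (Equiv.addRight (pt i)) _ _ fun g => ?_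
          rw [Equiv.coe_addRight]
          have : pt i + (g + pt i) = g := by
            rw [add_comm g, ← add_assoc, gam_add_self, zero_add]
          rw [this]; ring
        simp only [e2]
        rw [Finset.sum_comm]
        refine Finset.sum_eq_zero fun g _ => ?_
        rw [← Finset.mul_sum, hx1 g, mul_zero]
      rw [h1, h2]; simp

theorem mem_RL (D : Datum L) (x : D.Tw (fun g : Gam => g)) :
    x ∈ D.RL ↔ (∀ g, coeff 0 (x g) = coeff 0 (x 0)) ∧
    (∀ u, ∑ i, D.c i * coeff 1 (x (pt i + u)) = 0) ∧ ∑ g, coeff 2 (x g) = 0 := Iff.rfl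

/-- restriction to the six points -/
def res (D : Datum L) : D.RL →ₗ[D.R] D.M where
  toFun x := ⟨fun i => x.1 (pt i), by
    refine ⟨fun i => ?_, ?_⟩
    · rw [x.2.1 (pt i), x.2.1 (pt 0)]
    · simpa using x.2.2.1 0⟩
  map_add' x y := rfl
  map_smul' r x := rfl

theorem res_apply (D : Datum L) (x : D.RL) (i : Fin 6) : (D.res x).1 i = x.1 (pt i) := rfl

end Datum

end

end Pool.Agent.HWX
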